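import Mathlib
import Pool.Agent.H243.RA.F3
import Pool.Agent.H243.RP.Q12
set_option autoImplicit false

/-! Rotations of the plane and angular components. -/

open MeasureTheory Set Metric Filter Topology
open scoped ENNReal NNReal RealInnerProductSpace

namespace Pool.Agent.H243.RS

open Pool.Agent.H789R2.FR (E)
open Pool.Agent.W5h55.SH (Harm ev)
open Pool.Agent.H243.RA (cf lin lin_hom lin_harm lin_eval)
open Pool.Agent.H243.RP (Ang)

/-- the rotation by the angle `h` -/
noncomputable def rot (h : ℝ) (x : E 2) : E 2 :=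
  !₂[x 0 * Real.cos h - x 1 * Real.sin h, x 0 * Real.sin h + x 1 * Real.cos h]

/-- the rotation by the angle `h` as an isometry -/
noncomputable def rotL (h : ℝ) : E 2 ≃ₗᵢ[ℝ] E 2 where
  toFun x := !₂[x 0 * Real.cos h - x 1 * Real.sin h, x 0 * Real.sin h + x 1 * Real.cos h]
  invFun x := !₂[x 0 * Real.cos h + x 1 * Real.sin h, - x 0 * Real.sin h + x 1 * Real.cos h]
  map_add' x y := by
    ext i
    fin_cases i <;> simp <;> ring
  map_smul' c x := by
    ext i
    fin_cases i <;> simp <;> ring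
  left_inv x := by
    have hs := Real.sin_sq_add_cos_sq h
    ext i
    fin_cases i
    · simp
      linear_combination (x 0) * hs
    · simp
      linear_combination (x 1) * hs
  right_inv x := by
    have hs := Real.sin_sq_add_cos_sq h
    ext i
    fin_cases i
    · simp
      linear_combination (x 0) * hs
    · simp
      linear_combination (x 1) * hs
  norm_map' x := by
    simp only [LinearEquiv.coe_mk, LinearMap.coe_mk, AddHom.coe_mk]
    rw [EuclideanSpace.norm_eq, EuclideanSpace.norm_eq, Fin.sum_univ_two, Fin.sum_univ_two]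
    congr 1
    simp only [Real.norm_eq_abs, sq_abs]
    simp
    nlinarith [Real.sin_sq_add_cos_sq h]

theorem rot_0 (h : ℝ) (x : E 2) : rot h x 0 = x 0 * Real.cos h - x 1 * Real.sin h := rfl
theorem rot_1 (h : ℝ) (x : E 2) : rot h x 1 = x 0 * Real.sin h + x 1 * Real.cos h := rfl

theorem ext2 {x y : E 2} (h0 : x 0 = y 0) (h1 : x 1 = y 1) : x = y := by
  ext i
  fin_cases i
  · exact h0
  · exact h1

theorem rot_add (a b : ℝ) (x : E 2) : rot (a + b) x = rot a (rot b x) := by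
  apply ext2
  · rw [rot_0, rot_0, rot_0, rot_1, Real.cos_add, Real.sin_add]
    ring
  · rw [rot_1, rot_1, rot_0, rot_1, Real.cos_add, Real.sin_add]
    ring

theorem rot_zero (x : E 2) : rot 0 x = x := by
  apply ext2
  · rw [rot_0]
    simp
  · rw [rot_1]
    simp

theorem rot_per (a : ℝ) (x : E 2) : rot (a + 2 * Real.pi) x = rot a x := by
  apply ext2
  · rw [rot_0, rot_0, Real.cos_add_two_pi, Real.sin_add_two_pi]
  · rw [rot_1, rot_1, Real.cos_add_two_pi, Real.sin_add_two_pi]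

theorem rot_cont : Continuous fun p : ℝ × E 2 => rot p.1 p.2 := by
  refine (PiLp.continuous_toLp 2 _).comp ?_
  refine continuous_pi fun i => ?_
  fin_cases i
  · simp
    fun_prop
  · simp
    fun_prop

theorem rot_joint : Measurable fun p : ℝ × E 2 => rot p.1 p.2 := rot_cont.measurable

theorem rot_coe (h : ℝ) : rot h = rotL h := rfl

theorem rot_meas (h : ℝ) : Measurable (rot h) := by
  rw [rot_coe]
  exact (rotL h).continuous.measurable

theorem rot_mp (h : ℝ) : MeasurePreserving (rot h) (volume : Measure (E 2)) volume := by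
  rw [rot_coe]
  exact (rotL h).measurePreserving

theorem rot_smul (h r : ℝ) (x : E 2) : rot h (r • x) = r • rot h x := by
  rw [rot_coe]
  exact map_smul (rotL h) r x

theorem rot_norm (h : ℝ) (x : E 2) : ‖rot h x‖ = ‖x‖ := by
  rw [rot_coe]
  exact (rotL h).norm_map x

theorem rot_inner (h : ℝ) (x y : E 2) : (⟪rot h x, rot h y⟫ : ℝ) = ⟪x, y⟫ := by
  rw [rot_coe]
  exact (rotL h).inner_map_map x y

/-- the component of frequency `k` -/
noncomputable def comp (k : ℤ) (g : E 2 → ℂ) (x : E 2) : ℂ := cf (fun φ => g (rot φ x)) k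

theorem comp_eq (k : ℤ) (g : E 2 → ℂ) (x : E 2) : comp k g x =
    (((2 * Real.pi)⁻¹ : ℝ) : ℂ) * ∫ φ in (0 : ℝ)..(2 * Real.pi),
      g (rot φ x) * Complex.exp (-((k * φ : ℝ) : ℂ) * Complex.I) := rfl

theorem comp_meas (k : ℤ) {g : E 2 → ℂ} (hg : Measurable g) : Measurable (comp k g) := by
  have h0 : comp k g = fun x => (((2 * Real.pi)⁻¹ : ℝ) : ℂ) * ∫ φ in (0 : ℝ)..(2 * Real.pi),
      g (rot φ x) * Complex.exp (-((k * φ : ℝ) : ℂ) * Complex.I) := funext (comp_eq k g)
  rw [h0]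
  apply Measurable.const_mul
  have h : Measurable (Function.uncurry fun (x : E 2) (φ : ℝ) =>
      g (rot φ x) * Complex.exp (-((k * φ : ℝ) : ℂ) * Complex.I)) := by
    apply Measurable.mul
    · exact hg.comp (rot_joint.comp (measurable_snd.prodMk measurable_fst))
    · have : Continuous fun p : E 2 × ℝ => Complex.exp (-((k * p.2 : ℝ) : ℂ) * Complex.I) := by
        fun_prop
      exact this.measurable
  simp only [intervalIntegral.integral_of_le Real.two_pi_pos.le]
  exact (h.stronglyMeasurable.integral_prod_right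
    (ν := volume.restrict (Ioc 0 (2 * Real.pi)))).measurable

theorem comp_rot (k : ℤ) (g : E 2 → ℂ) (ψ : ℝ) (x : E 2) :
    comp k g (rot ψ x) = Complex.exp (((k * ψ : ℝ) : ℂ) * Complex.I) * comp k g x := by
  have hpi := Real.two_pi_pos
  rw [comp_eq, comp_eq]
  have h1 : ∀ φ : ℝ, g (rot φ (rot ψ x)) * Complex.exp (-((k * φ : ℝ) : ℂ) * Complex.I) =
      Complex.exp (((k * ψ : ℝ) : ℂ) * Complex.I) *
        (fun θ : ℝ => g (rot θ x) * Complex.exp (-((k * θ : ℝ) : ℂ) * Complex.I)) (φ + ψ) := by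
    intro φ
    beta_reduce
    rw [rot_add, mul_left_comm, ← Complex.exp_add]
    congr 2
    push_cast
    ring
  simp only [h1]
  rw [intervalIntegral.integral_const_mul]
  have hper : Function.Periodic (fun θ : ℝ => g (rot θ x) *
      Complex.exp (-((k * θ : ℝ) : ℂ) * Complex.I)) (2 * Real.pi) := by
    intro θ
    beta_reduce
    rw [rot_per]
    congr 1
    rw [show -((k * (θ + 2 * Real.pi) : ℝ) : ℂ) * Complex.I =
      -((k * θ : ℝ) : ℂ) * Complex.I + ((-k : ℤ) : ℂ) * (2 * Real.pi * Complex.I) by push_cast; ring,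
      Complex.exp_add, Complex.exp_int_mul_two_pi_mul_I, mul_one]
  rw [intervalIntegral.integral_comp_add_right (fun θ : ℝ => g (rot θ x) *
    Complex.exp (-((k * θ : ℝ) : ℂ) * Complex.I)), zero_add, add_comm (2 * Real.pi) ψ,
    hper.intervalIntegral_add_eq ψ 0, zero_add]
  ring

theorem exists_angle (x : E 2) :
    ∃ ψ : ℝ, x = rot ψ (!₂[‖x‖, 0] : E 2) ∧ x 0 = ‖x‖ * Real.cos ψ ∧ x 1 = ‖x‖ * Real.sin ψ := by
  set z : ℂ := ⟨x 0, x 1⟩ with hz
  have hn : ‖z‖ = ‖x‖ := by
    rw [Complex.norm_def, Complex.normSq_apply, EuclideanSpace.norm_eq, Fin.sum_univ_two]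
    congr 1
    simp only [Real.norm_eq_abs, sq_abs, hz]
    ring
  have h0 : x 0 = ‖x‖ * Real.cos z.arg := by
    rw [← hn, Complex.norm_mul_cos_arg]
  have h1 : x 1 = ‖x‖ * Real.sin z.arg := by
    rw [← hn, Complex.norm_mul_sin_arg]
  refine ⟨z.arg, ?_, h0, h1⟩
  apply ext2
  · rw [rot_0, h0]
    simp
  · rw [rot_1, h1]
    simp

/-- the components are harmonics on circles -/
theorem comp_Ang (k : ℤ) (g : E 2 → ℂ) : Ang (d := 2) k.natAbs (comp k g) := by
  intro r hr
  set b : E 2 := !₂[r, 0] with hb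
  set c : ℂ := comp k g b with hc
  -- the sign
  obtain ⟨u, hu1, hu⟩ : ∃ u : ℝ, (u = 1 ∨ u = -1) ∧ u * (k.natAbs : ℝ) = k := by
    rcases le_total 0 k with h | h
    · refine ⟨1, Or.inl rfl, ?_⟩
      rw [one_mul, Nat.cast_natAbs, abs_of_nonneg h]
    · refine ⟨-1, Or.inr rfl, ?_⟩
      rw [Nat.cast_natAbs, abs_of_nonpos h]
      push_cast
      ring
  have hu2 : u ^ 2 = 1 := by
    rcases hu1 with rfl | rfl <;> norm_num
  have huc : ((u : ℂ) * Complex.I) ^ 2 = -1 := by
    rw [mul_pow, Complex.I_sq, ← Complex.ofReal_pow, hu2]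
    simp
  refine ⟨MvPolynomial.C (c * ((r⁻¹ ^ k.natAbs : ℝ) : ℂ)) * (lin ((u : ℂ) * Complex.I)) ^ k.natAbs,
    ?_, lin_harm _ huc _ _, fun x hx => ?_⟩
  · have := (MvPolynomial.isHomogeneous_C (Fin 2) (c * ((r⁻¹ ^ k.natAbs : ℝ) : ℂ))).mul
      (lin_hom ((u : ℂ) * Complex.I) k.natAbs)
    rwa [zero_add] at this
  · obtain ⟨ψ, h1, h2, h3⟩ := exists_angle x
    rw [hx] at h1 h2 h3
    have hcx : comp k g x = Complex.exp (((k * ψ : ℝ) : ℂ) * Complex.I) * c := by
      conv_lhs => rw [h1]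
      rw [comp_rot]
    rw [hcx]
    unfold ev
    rw [lin_eval]
    have e0 : ((x 0 : ℝ) : ℂ) = ((r * Real.cos ψ : ℝ) : ℂ) := congrArg _ h2
    have e1 : ((x 1 : ℝ) : ℂ) = ((r * Real.sin ψ : ℝ) : ℂ) := congrArg _ h3
    rw [e0, e1]
    have e2 : ((r * Real.cos ψ : ℝ) : ℂ) + (u : ℂ) * Complex.I * ((r * Real.sin ψ : ℝ) : ℂ) =
        (r : ℂ) * Complex.exp (((u * ψ : ℝ) : ℂ) * Complex.I) := by
      have hcos : Real.cos (u * ψ) = Real.cos ψ := by
        rcases hu1 with h9 | h9 <;> rw [h9]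
        · rw [one_mul]
        · rw [neg_one_mul, Real.cos_neg]
      have hsin : Real.sin (u * ψ) = u * Real.sin ψ := by
        rcases hu1 with h9 | h9 <;> rw [h9]
        · rw [one_mul, one_mul]
        · rw [neg_one_mul, Real.sin_neg, neg_one_mul]
      rw [Complex.exp_mul_I, ← Complex.ofReal_cos, ← Complex.ofReal_sin, hcos, hsin]
      push_cast
      ring
    have e3 : Complex.exp (((u * ψ : ℝ) : ℂ) * Complex.I) ^ k.natAbs =
        Complex.exp (((k * ψ : ℝ) : ℂ) * Complex.I) := by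
      rw [← Complex.exp_nat_mul]
      congr 1
      rw [← hu]
      push_cast
      ring
    rw [e2, mul_pow, e3]
    have h6 : ((r⁻¹ ^ k.natAbs : ℝ) : ℂ) * (r : ℂ) ^ k.natAbs = 1 := by
      rw [← Complex.ofReal_pow, ← Complex.ofReal_mul, ← mul_pow, inv_mul_cancel₀ hr.ne', one_pow,
        Complex.ofReal_one]
    calc Complex.exp (((k * ψ : ℝ) : ℂ) * Complex.I) * c
        = c * 1 * Complex.exp (((k * ψ : ℝ) : ℂ) * Complex.I) := by ring
      _ = c * (((r⁻¹ ^ k.natAbs : ℝ) : ℂ) * (r : ℂ) ^ k.natAbs) *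
          Complex.exp (((k * ψ : ℝ) : ℂ) * Complex.I) := by rw [h6]
      _ = _ := by ring

/-- averages over rotations -/
theorem avg_rot (F : E 2 → ℝ≥0∞) (hF : Measurable F) :
    ∫⁻ x, F x = ∫⁻ x, ENNReal.ofReal ((2 * Real.pi)⁻¹) *
      (∫⁻ φ in Ioc (0 : ℝ) (2 * Real.pi), F (rot φ x)) := by
  have hpi := Real.two_pi_pos
  have hm : Measurable (Function.uncurry fun (x : E 2) (φ : ℝ) => F (rot φ x)) :=
    hF.comp (rot_joint.comp (measurable_snd.prodMk measurable_fst))
  rw [lintegral_const_mul' _ _ ENNReal.ofReal_ne_top, lintegral_lintegral_swap hm.aemeasurable]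
  have h1 : ∀ φ : ℝ, ∫⁻ x, F (rot φ x) = ∫⁻ x, F x := fun φ =>
    (rot_mp φ).lintegral_comp hF
  simp only [h1]
  rw [setLIntegral_const, Real.volume_Ioc, sub_zero, mul_comm, mul_assoc, ← ENNReal.ofReal_mul
    (by positivity), mul_inv_cancel₀ hpi.ne', ENNReal.ofReal_one, mul_one]

theorem avg_const : ENNReal.ofReal ((2 * Real.pi)⁻¹) * ∫⁻ _φ in Ioc (0 : ℝ) (2 * Real.pi), (1 : ℝ≥0∞) = 1 := by
  have hpi := Real.two_pi_pos
  rw [setLIntegral_one, Real.volume_Ioc, sub_zero, ← ENNReal.ofReal_mul (by positivity),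
    inv_mul_cancel₀ hpi.ne', ENNReal.ofReal_one]

end Pool.Agent.H243.RS
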