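import Mathlib
import Pool.Agent.H243.RS.G1
import Pool.Agent.H243.RP.Q15
set_option autoImplicit false

/-! Angular components and the extension operator. -/

open MeasureTheory Set Metric Filter Topology
open scoped ENNReal NNReal RealInnerProductSpace

namespace Pool.Agent.H243.RS

open Pool.Agent.H789R2.FR (E)
open Pool.Agent.H243.RA (cf)
open Pool.Agent.H243.RP (X Ang norm_phase X_meas)

/-- the phase function -/
noncomputable def ph (x : E 2) (z : ℝ) (ξ : E 2) : ℂ :=
  Complex.exp (-((⟪x, ξ⟫ + ‖ξ‖ ^ 2 * z : ℝ) : ℂ) * Complex.I)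

theorem ph_norm (x : E 2) (z : ℝ) (ξ : E 2) : ‖ph x z ξ‖ = 1 := norm_phase _

theorem ph_cont : Continuous fun p : E 2 × ℝ × E 2 => ph p.1 p.2.1 p.2.2 := by
  unfold ph
  fun_prop

theorem X_ph (f : E 2 → ℂ) (x : E 2) (z : ℝ) : X f x z = ∫ ξ, ph x z ξ * f ξ := rfl

theorem ph_rot (s : ℝ) (x : E 2) (z : ℝ) (ξ : E 2) : ph (rot s x) z (rot s ξ) = ph x z ξ := by
  unfold ph
  rw [rot_inner, rot_norm]

theorem X_rot (f : E 2 → ℂ) (s : ℝ) (x : E 2) (z : ℝ) :
    X f (rot s x) z = X (fun ξ => f (rot s ξ)) x z := by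
  have hmp : MeasurePreserving (rotL s) (volume : Measure (E 2)) volume := (rotL s).measurePreserving
  have hemb : MeasurableEmbedding (rotL s) := (rotL s).toHomeomorph.measurableEmbedding
  rw [X_ph, X_ph, ← hmp.integral_comp hemb]
  refine integral_congr_ae (ae_of_all _ fun ξ => ?_)
  beta_reduce
  rw [← rot_coe, ph_rot]

theorem rotf_int {f : E 2 → ℂ} (hf : Measurable f) (hi : Integrable f) :
    Integrable (fun p : E 2 × ℝ => f (rot p.2 p.1))
      ((volume : Measure (E 2)).prod (volume.restrict (Ioc (0 : ℝ) (2 * Real.pi)))) := by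
  have hpi := Real.two_pi_pos
  have hm : Measurable fun p : E 2 × ℝ => f (rot p.2 p.1) :=
    hf.comp (rot_joint.comp (measurable_snd.prodMk measurable_fst))
  refine ⟨hm.aestronglyMeasurable, ?_⟩
  have h1 := avg_rot (fun x => ‖f x‖ₑ) hf.enorm
  have h2 : ∫⁻ x, ‖f x‖ₑ < ∞ := hi.2
  unfold HasFiniteIntegral
  rw [lintegral_prod _ hm.enorm.aemeasurable]
  rw [h1, lintegral_const_mul' _ _ ENNReal.ofReal_ne_top] at h2
  by_contra hc
  rw [not_lt, top_le_iff] at hc
  rw [hc, ENNReal.mul_top (by simpa using by positivity)] at h2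
  exact lt_irrefl _ h2

theorem X_comp (k : ℤ) {f : E 2 → ℂ} (hf : Measurable f) (hi : Integrable f) (x : E 2) (z : ℝ) :
    X (comp k f) x z = comp k (fun y => X f y z) x := by
  have hpi := Real.two_pi_pos
  rw [X_ph, comp_eq]
  have e1 : ∀ ξ, ph x z ξ * comp k f ξ = (((2 * Real.pi)⁻¹ : ℝ) : ℂ) *
      ∫ φ in Ioc (0 : ℝ) (2 * Real.pi), ph x z ξ *
        (f (rot φ ξ) * Complex.exp (-((k * φ : ℝ) : ℂ) * Complex.I)) := by
    intro ξ
    rw [comp_eq, intervalIntegral.integral_of_le hpi.le, integral_const_mul]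
    ring
  simp_rw [e1]
  rw [integral_const_mul, intervalIntegral.integral_of_le hpi.le]
  congr 1
  have hint : Integrable (Function.uncurry fun (ξ : E 2) (φ : ℝ) => ph x z ξ *
      (f (rot φ ξ) * Complex.exp (-((k * φ : ℝ) : ℂ) * Complex.I)))
      ((volume : Measure (E 2)).prod (volume.restrict (Ioc (0 : ℝ) (2 * Real.pi)))) := by
    have h1 := rotf_int hf hi
    have h2 : Integrable (fun p : E 2 × ℝ => f (rot p.2 p.1) *
        Complex.exp (-((k * p.2 : ℝ) : ℂ) * Complex.I))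
        ((volume : Measure (E 2)).prod (volume.restrict (Ioc (0 : ℝ) (2 * Real.pi)))) := by
      apply h1.mul_bdd (c := 1)
      · apply Continuous.aestronglyMeasurable
        fun_prop
      · exact Eventually.of_forall fun p => (norm_phase _).le
    apply h2.bdd_mul (c := 1)
    · apply Continuous.aestronglyMeasurable
      unfold ph
      fun_prop
    · exact Eventually.of_forall fun p => (ph_norm _ _ _).le
  rw [integral_integral_swap hint]
  refine integral_congr_ae (ae_of_all _ fun φ => ?_)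
  beta_reduce
  rw [X_rot, X_ph, ← integral_mul_const]
  refine integral_congr_ae (ae_of_all _ fun ξ => ?_)
  beta_reduce
  ring

/-- the kernel of the component -/
noncomputable def ker (k : ℤ) (x : E 2) (z : ℝ) (ξ : E 2) : ℂ := cf (fun φ => ph (rot φ x) z ξ) k

theorem ker_eq (k : ℤ) (x : E 2) (z : ℝ) (ξ : E 2) : ker k x z ξ =
    (((2 * Real.pi)⁻¹ : ℝ) : ℂ) * ∫ φ in (0 : ℝ)..(2 * Real.pi),
      ph (rot φ x) z ξ * Complex.exp (-((k * φ : ℝ) : ℂ) * Complex.I) := rfl

theorem phr_cont : Continuous fun q : (E 2 × ℝ × E 2) × ℝ => ph (rot q.2 q.1.1) q.1.2.1 q.1.2.2 := by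
  have h1 : Continuous fun q : (E 2 × ℝ × E 2) × ℝ =>
      ((rot q.2 q.1.1, q.1.2.1, q.1.2.2) : E 2 × ℝ × E 2) := by
    refine Continuous.prodMk ?_ (by fun_prop)
    exact rot_cont.comp (by fun_prop : Continuous fun q : (E 2 × ℝ × E 2) × ℝ => (q.2, q.1.1))
  exact ph_cont.comp h1

theorem ker_meas (k : ℤ) : Measurable fun p : E 2 × ℝ × E 2 => ker k p.1 p.2.1 p.2.2 := by
  have h0 : (fun p : E 2 × ℝ × E 2 => ker k p.1 p.2.1 p.2.2) = fun p =>
      (((2 * Real.pi)⁻¹ : ℝ) : ℂ) * ∫ φ in (0 : ℝ)..(2 * Real.pi),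
      ph (rot φ p.1) p.2.1 p.2.2 * Complex.exp (-((k * φ : ℝ) : ℂ) * Complex.I) :=
    funext fun p => ker_eq k _ _ _
  rw [h0]
  apply Measurable.const_mul
  have h : Continuous (Function.uncurry fun (p : E 2 × ℝ × E 2) (φ : ℝ) =>
      ph (rot φ p.1) p.2.1 p.2.2 * Complex.exp (-((k * φ : ℝ) : ℂ) * Complex.I)) := by
    apply Continuous.mul phr_cont
    fun_prop
  simp only [intervalIntegral.integral_of_le Real.two_pi_pos.le]
  exact (h.measurable.stronglyMeasurable.integral_prod_right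
    (ν := volume.restrict (Ioc 0 (2 * Real.pi)))).measurable

theorem ker_le (k : ℤ) (x : E 2) (z : ℝ) (ξ : E 2) : ‖ker k x z ξ‖ ≤ 1 := by
  have hpi := Real.two_pi_pos
  have h := intervalIntegral.norm_integral_le_of_norm_le_const (a := 0) (b := 2 * Real.pi) (C := 1)
    (f := fun φ => ph (rot φ x) z ξ * Complex.exp (-((k * φ : ℝ) : ℂ) * Complex.I)) (fun φ _ => by
      rw [norm_mul, ph_norm, norm_phase, mul_one])
  rw [ker_eq, norm_mul, Complex.norm_real, Real.norm_of_nonneg (by positivity),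
    inv_mul_le_iff₀ hpi]
  refine h.trans (le_of_eq ?_)
  rw [sub_zero, abs_of_pos hpi, mul_comm]

theorem phx_cont (x : E 2) (z : ℝ) : Continuous fun p : E 2 × ℝ => ph (rot p.2 x) z p.1 := by
  have h4 : Continuous fun p : E 2 × ℝ => rot p.2 x :=
    rot_cont.comp (by fun_prop : Continuous fun p : E 2 × ℝ => (p.2, x))
  have h5 : Continuous fun p : E 2 × ℝ => ((⟪rot p.2 x, p.1⟫ + ‖p.1‖ ^ 2 * z : ℝ) : ℂ) :=
    Complex.continuous_ofReal.comp ((h4.inner continuous_fst).add (by fun_prop))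
  exact Complex.continuous_exp.comp (h5.neg.mul continuous_const)

theorem comp_ker (k : ℤ) {f : E 2 → ℂ} (hi : Integrable f) (x : E 2) (z : ℝ) :
    comp k (fun y => X f y z) x = ∫ ξ, ker k x z ξ * f ξ := by
  have hpi := Real.two_pi_pos
  rw [comp_eq]
  have e1 : ∀ ξ, ker k x z ξ * f ξ = (((2 * Real.pi)⁻¹ : ℝ) : ℂ) *
      ∫ φ in Ioc (0 : ℝ) (2 * Real.pi), (ph (rot φ x) z ξ * f ξ) *
        Complex.exp (-((k * φ : ℝ) : ℂ) * Complex.I) := by
    intro ξ
    rw [ker_eq, intervalIntegral.integral_of_le hpi.le, mul_assoc, ← integral_mul_const]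
    congr 1
    refine integral_congr_ae (ae_of_all _ fun φ => ?_)
    beta_reduce
    ring
  simp_rw [e1]
  rw [integral_const_mul, intervalIntegral.integral_of_le hpi.le]
  congr 1
  have hint : Integrable (Function.uncurry fun (ξ : E 2) (φ : ℝ) => (ph (rot φ x) z ξ * f ξ) *
        Complex.exp (-((k * φ : ℝ) : ℂ) * Complex.I))
      ((volume : Measure (E 2)).prod (volume.restrict (Ioc (0 : ℝ) (2 * Real.pi)))) := by
    have h1 : Integrable (fun p : E 2 × ℝ => f p.1)
        ((volume : Measure (E 2)).prod (volume.restrict (Ioc (0 : ℝ) (2 * Real.pi)))) :=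
      hi.comp_fst _
    have h2 : Integrable (fun p : E 2 × ℝ => ph (rot p.2 x) z p.1 * f p.1)
        ((volume : Measure (E 2)).prod (volume.restrict (Ioc (0 : ℝ) (2 * Real.pi)))) := by
      apply h1.bdd_mul (c := 1)
      · exact (phx_cont x z).aestronglyMeasurable
      · exact Eventually.of_forall fun p => (ph_norm _ _ _).le
    apply h2.mul_bdd (c := 1)
    · apply Continuous.aestronglyMeasurable
      fun_prop
    · exact Eventually.of_forall fun p => (norm_phase _).le
  rw [integral_integral_swap hint]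
  refine integral_congr_ae (ae_of_all _ fun φ => ?_)
  beta_reduce
  rw [X_ph, ← integral_mul_const]

theorem X_comp_ker (k : ℤ) {f : E 2 → ℂ} (hf : Measurable f) (hi : Integrable f) (x : E 2) (z : ℝ) :
    X (comp k f) x z = ∫ ξ, ker k x z ξ * f ξ := by
  rw [X_comp k hf hi, comp_ker k hi]

theorem X_comp_rot (k : ℤ) {f : E 2 → ℂ} (hf : Measurable f) (hi : Integrable f) (s : ℝ) (x : E 2)
    (z : ℝ) : X (comp k f) (rot s x) z =
      Complex.exp (((k * s : ℝ) : ℂ) * Complex.I) * X (comp k f) x z := by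
  rw [X_comp k hf hi, X_comp k hf hi]
  exact comp_rot k (fun y => X f y z) s x

end Pool.Agent.H243.RS
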