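import Mathlib
import Pool.Agent.H243.RA.F1
set_option autoImplicit false

/-! Fourier series of square integrable functions: convergence in `L¹`, Bessel and Parseval. -/

open MeasureTheory Set Metric Filter Topology AddCircle
open scoped ENNReal NNReal

namespace Pool.Agent.H243.RS

open Pool.Agent.H243.RA (cf cf_eq orth_sub_le)

local instance instPos : Fact (0 < 2 * Real.pi) := ⟨Real.two_pi_pos⟩

/-- the mean square -/
noncomputable def msq (h : ℝ → ℂ) : ℝ≥0∞ :=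
  ENNReal.ofReal ((2 * Real.pi)⁻¹) * ∫⁻ φ in Ioc (0 : ℝ) (2 * Real.pi), ‖h φ‖ₑ ^ 2

theorem norm_lift (h : ℝ → ℂ) :
    (eLpNorm (AddCircle.liftIoc (2 * Real.pi) 0 h) 2 (haarAddCircle (T := 2 * Real.pi))) ^ 2 =
      msq h := by
  have hpi := Real.two_pi_pos
  unfold msq
  rw [eLpNorm_eq_lintegral_rpow_enorm_toReal (by norm_num) (by norm_num), ← ENNReal.rpow_two,
    ← ENNReal.rpow_mul]
  simp only [ENNReal.toReal_ofNat, one_div, ENNReal.rpow_two]
  rw [inv_mul_cancel₀ (by norm_num), ENNReal.rpow_one]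
  have e1 : ∫⁻ φ in Ioc (0 : ℝ) (2 * Real.pi), ‖h φ‖ₑ ^ 2 =
      ∫⁻ b : AddCircle (2 * Real.pi), ‖AddCircle.liftIoc (2 * Real.pi) 0 h b‖ₑ ^ 2 := by
    rw [← AddCircle.lintegral_preimage (2 * Real.pi) 0, zero_add]
    apply setLIntegral_congr_fun measurableSet_Ioc
    intro φ hφ
    beta_reduce
    rw [AddCircle.liftIoc_coe_apply (by rwa [zero_add])]
  rw [e1, volume_eq_smul_haarAddCircle, lintegral_smul_measure, smul_eq_mul, ← mul_assoc,
    ← ENNReal.ofReal_mul (by positivity), inv_mul_cancel₀ hpi.ne', ENNReal.ofReal_one, one_mul]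

theorem circ2 (h : ℝ → ℂ) (hm : Measurable h) (hf : msq h ≠ ∞) :
    Tendsto (fun s : Finset ℤ => ∫⁻ φ in Ioc (0 : ℝ) (2 * Real.pi),
      ‖h φ - ∑ k ∈ s, cf h k * Complex.exp (((k * φ : ℝ) : ℂ) * Complex.I)‖ₑ) atTop (𝓝 0) ∧
    (∀ s : Finset ℤ, (∫⁻ φ in Ioc (0 : ℝ) (2 * Real.pi),
      ‖h φ - ∑ k ∈ s, cf h k * Complex.exp (((k * φ : ℝ) : ℂ) * Complex.I)‖ₑ) ^ 2 ≤
      ENNReal.ofReal (2 * Real.pi) ^ 2 * msq h) ∧
    ∀ s : Finset ℤ, ∑ k ∈ s, ‖cf h k‖ₑ ^ 2 ≤ msq h := by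
  have hpi := Real.pi_pos
  set H : AddCircle (2 * Real.pi) → ℂ := AddCircle.liftIoc (2 * Real.pi) 0 h with hH
  have hL : MemLp h 2 (volume.restrict (Ioc 0 (0 + 2 * Real.pi))) := by
    refine ⟨hm.aestronglyMeasurable, ?_⟩
    rw [eLpNorm_lt_top_iff_lintegral_rpow_enorm_lt_top (by norm_num) (by norm_num)]
    simp only [ENNReal.toReal_ofNat, ENNReal.rpow_two]
    rw [zero_add]
    by_contra hc
    rw [not_lt, top_le_iff] at hc
    apply hf
    unfold msq
    rw [hc, ENNReal.mul_top]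
    simpa using by positivity
  have hHL : MemLp H 2 (haarAddCircle (T := 2 * Real.pi)) := hL.memLp_liftIoc.haarAddCircle
  set f : Lp ℂ 2 (haarAddCircle (T := 2 * Real.pi)) := hHL.toLp H with hf
  have hcf : ∀ k, fourierCoeff (f : AddCircle (2 * Real.pi) → ℂ) k = cf h k := by
    intro k
    rw [fourierCoeff_congr_ae hHL.coeFn_toLp]
    exact cf_eq h k
  have hfn : ENNReal.ofReal ‖f‖ ^ 2 = msq h := by
    rw [← norm_lift h, hf, Lp.norm_toLp, ENNReal.ofReal_toReal hHL.2.ne]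
  have h7 : ∀ k : ℤ, inner ℂ (fourierLp (T := 2 * Real.pi) 2 k) f = cf h k := by
    intro k
    rw [← hcf, ← fourierBasis_repr, ← coe_fourierBasis, HilbertBasis.repr_apply_apply]
  -- the integral in terms of the norm
  have key : ∀ s : Finset ℤ, ∫⁻ φ in Ioc (0 : ℝ) (2 * Real.pi),
      ‖h φ - ∑ k ∈ s, cf h k * Complex.exp (((k * φ : ℝ) : ℂ) * Complex.I)‖ₑ ≤
      ENNReal.ofReal (2 * Real.pi) * ENNReal.ofReal ‖f - ∑ k ∈ s, cf h k • fourierLp 2 k‖ := by
    intro s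
    set Ψ : AddCircle (2 * Real.pi) → ℂ := fun b => H b - ∑ k ∈ s, cf h k * fourier k b with hΨ
    have e1 : ∫⁻ φ in Ioc (0 : ℝ) (2 * Real.pi),
        ‖h φ - ∑ k ∈ s, cf h k * Complex.exp (((k * φ : ℝ) : ℂ) * Complex.I)‖ₑ =
        ∫⁻ b : AddCircle (2 * Real.pi), ‖Ψ b‖ₑ := by
      rw [← AddCircle.lintegral_preimage (2 * Real.pi) 0, zero_add]
      apply setLIntegral_congr_fun measurableSet_Ioc
      intro φ hφ
      simp only [hΨ, hH]
      rw [AddCircle.liftIoc_coe_apply (by rwa [zero_add])]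
      congr 3
      funext k
      rw [fourier_coe_apply]
      congr 2
      have : (Real.pi : ℂ) ≠ 0 := by exact_mod_cast hpi.ne'
      push_cast
      field_simp
    have e2 : Ψ =ᵐ[haarAddCircle] (f - ∑ k ∈ s, cf h k • fourierLp 2 k : Lp ℂ 2 haarAddCircle) := by
      have a1 := Lp.coeFn_sub f (∑ k ∈ s, cf h k • fourierLp (T := 2 * Real.pi) 2 k)
      have a2 := Lp.coeFn_finsetSum s (fun k => cf h k • fourierLp (T := 2 * Real.pi) 2 k)
      have a3 : ∀ k : ℤ, (cf h k • fourierLp (T := 2 * Real.pi) 2 k : Lp ℂ 2 haarAddCircle)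
          =ᵐ[haarAddCircle] fun b => cf h k * fourier k b := by
        intro k
        filter_upwards [Lp.coeFn_smul (cf h k) (fourierLp (T := 2 * Real.pi) 2 k),
          coeFn_fourierLp (T := 2 * Real.pi) 2 k] with b hb1 hb2
        rw [hb1, Pi.smul_apply, hb2, smul_eq_mul]
      filter_upwards [a1, a2, ae_all_iff.2 a3, hHL.coeFn_toLp] with b hb1 hb2 hb3 hb4
      rw [hb1, Pi.sub_apply, hb2, hf, hb4, Finset.sum_apply]
      simp only [hb3, hΨ]
    have hΨm : AEStronglyMeasurable Ψ (haarAddCircle (T := 2 * Real.pi)) :=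
      (Lp.aestronglyMeasurable _).congr e2.symm
    rw [e1, volume_eq_smul_haarAddCircle, lintegral_smul_measure, smul_eq_mul]
    gcongr
    rw [← eLpNorm_one_eq_lintegral_enorm]
    refine (eLpNorm_le_eLpNorm_of_exponent_le (q := 2) (by norm_num) hΨm).trans ?_
    rw [eLpNorm_congr_ae e2, Lp.norm_def, ENNReal.ofReal_toReal (Lp.eLpNorm_ne_top _)]
  refine ⟨?_, ?_, ?_⟩
  · have h1 := hasSum_fourier_series_L2 f
    simp only [hcf] at h1
    have h2 : Tendsto (fun s : Finset ℤ => f - ∑ k ∈ s, cf h k • fourierLp (T := 2 * Real.pi) 2 k)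
        atTop (𝓝 (f - f)) := h1.const_sub f
    rw [sub_self] at h2
    have h3 := (h2.norm)
    rw [norm_zero] at h3
    have h4 := (ENNReal.tendsto_ofReal h3)
    have h5 := ENNReal.Tendsto.const_mul (a := ENNReal.ofReal (2 * Real.pi)) h4
      (Or.inr ENNReal.ofReal_ne_top)
    rw [ENNReal.ofReal_zero, mul_zero] at h5
    exact tendsto_of_tendsto_of_tendsto_of_le_of_le tendsto_const_nhds h5
      (fun s => zero_le) key
  · intro s
    refine (pow_le_pow_left' (key s) 2).trans ?_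
    rw [mul_pow, ← hfn]
    have h6 := orth_sub_le (orthonormal_fourier (T := 2 * Real.pi)) f s
    simp only [h7] at h6
    gcongr
  · intro s
    rw [← hfn, ← ENNReal.ofReal_pow (norm_nonneg _)]
    have h6 := (orthonormal_fourier (T := 2 * Real.pi)).sum_inner_products_le f (s := s)
    simp only [h7] at h6
    have h8 : ∑ k ∈ s, ‖cf h k‖ₑ ^ 2 = ENNReal.ofReal (∑ k ∈ s, ‖cf h k‖ ^ 2) := by
      rw [ENNReal.ofReal_sum_of_nonneg fun k _ => by positivity]
      refine Finset.sum_congr rfl fun k _ => ?_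
      rw [ENNReal.ofReal_pow (norm_nonneg _), ofReal_norm]
    rw [h8]
    exact ENNReal.ofReal_le_ofReal h6

/-- Parseval's identity for trigonometric polynomials -/
theorem parseval (s : Finset ℤ) (c : ℤ → ℂ) :
    msq (fun φ => ∑ k ∈ s, Complex.exp (((k * φ : ℝ) : ℂ) * Complex.I) * c k) =
      ∑ k ∈ s, ‖c k‖ₑ ^ 2 := by
  have hpi := Real.pi_pos
  set h : ℝ → ℂ := fun φ => ∑ k ∈ s, Complex.exp (((k * φ : ℝ) : ℂ) * Complex.I) * c k with hh
  set H : AddCircle (2 * Real.pi) → ℂ := AddCircle.liftIoc (2 * Real.pi) 0 h with hH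
  have e1 : ∀ b, H b = ∑ k ∈ s, c k * fourier k b := by
    intro b
    obtain ⟨φ, hφ, rfl⟩ : ∃ φ ∈ Ioc (0 : ℝ) (0 + 2 * Real.pi), ((φ : ℝ) : AddCircle (2 * Real.pi)) = b := by
      exact ⟨_, (AddCircle.equivIoc (2 * Real.pi) 0 b).2,
        (AddCircle.equivIoc (2 * Real.pi) 0).symm_apply_apply b⟩
    rw [hH, AddCircle.liftIoc_coe_apply hφ, hh]
    refine Finset.sum_congr rfl fun k _ => ?_
    rw [mul_comm, fourier_coe_apply]
    congr 2
    have : (Real.pi : ℂ) ≠ 0 := by exact_mod_cast hpi.ne'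
    push_cast
    field_simp
  have e2 : H =ᵐ[haarAddCircle] (∑ k ∈ s, c k • fourierLp 2 k : Lp ℂ 2 haarAddCircle) := by
    have a2 := Lp.coeFn_finsetSum s (fun k => c k • fourierLp (T := 2 * Real.pi) 2 k)
    have a3 : ∀ k : ℤ, (c k • fourierLp (T := 2 * Real.pi) 2 k : Lp ℂ 2 haarAddCircle)
        =ᵐ[haarAddCircle] fun b => c k * fourier k b := by
      intro k
      filter_upwards [Lp.coeFn_smul (c k) (fourierLp (T := 2 * Real.pi) 2 k),
        coeFn_fourierLp (T := 2 * Real.pi) 2 k] with b hb1 hb2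
      rw [hb1, Pi.smul_apply, hb2, smul_eq_mul]
    filter_upwards [a2, ae_all_iff.2 a3] with b hb2 hb3
    rw [hb2, Finset.sum_apply, e1]
    simp only [hb3]
  rw [← norm_lift h, ← hH, eLpNorm_congr_ae e2]
  have h9 : eLpNorm (∑ k ∈ s, c k • fourierLp (T := 2 * Real.pi) 2 k : Lp ℂ 2 haarAddCircle) 2
      haarAddCircle = ENNReal.ofReal ‖∑ k ∈ s, c k • fourierLp (T := 2 * Real.pi) 2 k‖ := by
    rw [Lp.norm_def, ENNReal.ofReal_toReal (Lp.eLpNorm_ne_top _)]
  rw [h9, ← ENNReal.ofReal_pow (norm_nonneg _)]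
  have h10 : ‖∑ k ∈ s, c k • fourierLp (T := 2 * Real.pi) 2 k‖ ^ 2 = ∑ k ∈ s, ‖c k‖ ^ 2 := by
    have h11 := (orthonormal_fourier (T := 2 * Real.pi)).inner_sum c c s
    rw [@norm_sq_eq_re_inner ℂ, h11]
    simp only [map_sum]
    refine Finset.sum_congr rfl fun k _ => ?_
    rw [← Complex.normSq_eq_norm_sq, ← Complex.normSq_eq_conj_mul_self]
    simp
  rw [h10, ENNReal.ofReal_sum_of_nonneg fun k _ => by positivity]
  refine Finset.sum_congr rfl fun k _ => ?_
  rw [ENNReal.ofReal_pow (norm_nonneg _), ofReal_norm]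

end Pool.Agent.H243.RS
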