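import Mathlib
import Pool.Agent.H243.RS.G2
import Pool.Agent.H243.RS.G3
set_option autoImplicit false

/-! Norm inequalities for the angular components. -/

open MeasureTheory Set Metric Filter Topology
open scoped ENNReal NNReal RealInnerProductSpace

namespace Pool.Agent.H243.RS

open Pool.Agent.H789R2.FR (E)
open Pool.Agent.H243.RA (cf)
open Pool.Agent.H243.RP (X Ang norm_phase X_meas)

theorem jensen {q : ℝ} (hq : 1 ≤ q) (F : ℝ → ℝ≥0∞) (hF : Measurable F) :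
    (ENNReal.ofReal ((2 * Real.pi)⁻¹) * ∫⁻ φ in Ioc (0 : ℝ) (2 * Real.pi), F φ) ^ q ≤
      ENNReal.ofReal ((2 * Real.pi)⁻¹) * ∫⁻ φ in Ioc (0 : ℝ) (2 * Real.pi), F φ ^ q := by
  have hpi := Real.two_pi_pos
  have hq0 : 0 < q := by linarith
  set μ : Measure ℝ := ENNReal.ofReal ((2 * Real.pi)⁻¹) • volume.restrict (Ioc (0 : ℝ) (2 * Real.pi))
    with hμ
  have hprob : IsProbabilityMeasure μ := ⟨by
    rw [hμ, Measure.smul_apply, Measure.restrict_apply_univ, Real.volume_Ioc, sub_zero, smul_eq_mul,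
      ← ENNReal.ofReal_mul (by positivity), inv_mul_cancel₀ hpi.ne', ENNReal.ofReal_one]⟩
  have e1 : ∀ G : ℝ → ℝ≥0∞, ∫⁻ φ, G φ ∂μ = ENNReal.ofReal ((2 * Real.pi)⁻¹) *
      ∫⁻ φ in Ioc (0 : ℝ) (2 * Real.pi), G φ := by
    intro G
    rw [hμ, lintegral_smul_measure, smul_eq_mul]
  rw [← e1, ← e1]
  have h1 : eLpNorm F 1 μ ≤ eLpNorm F (ENNReal.ofReal q) μ :=
    eLpNorm_le_eLpNorm_of_exponent_le (by
      rw [← ENNReal.ofReal_one]
      exact ENNReal.ofReal_le_ofReal hq) hF.aestronglyMeasurable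
  rw [eLpNorm_one_eq_lintegral_enorm, eLpNorm_eq_lintegral_rpow_enorm_toReal (by simpa using hq0)
    ENNReal.ofReal_ne_top, ENNReal.toReal_ofReal hq0.le] at h1
  simp only [enorm_eq_self] at h1
  have h2 := ENNReal.rpow_le_rpow h1 hq0.le
  rwa [← ENNReal.rpow_mul, one_div, inv_mul_cancel₀ hq0.ne', ENNReal.rpow_one] at h2

theorem rotg_meas {g : E 2 → ℂ} (hg : Measurable g) (x : E 2) : Measurable fun φ => g (rot φ x) :=
  hg.comp (rot_joint.comp measurable_prodMk_right)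

theorem comp_le_avg (k : ℤ) (g : E 2 → ℂ) (x : E 2) :
    ‖comp k g x‖ₑ ≤ ENNReal.ofReal ((2 * Real.pi)⁻¹) *
      ∫⁻ φ in Ioc (0 : ℝ) (2 * Real.pi), ‖g (rot φ x)‖ₑ := by
  have hpi := Real.two_pi_pos
  rw [comp_eq, enorm_mul, ← ofReal_norm, Complex.norm_real, Real.norm_of_nonneg (by positivity),
    intervalIntegral.integral_of_le hpi.le]
  gcongr
  refine (enorm_integral_le_lintegral_enorm _).trans (le_of_eq ?_)
  refine lintegral_congr fun φ => ?_
  rw [enorm_mul, ← ofReal_norm (Complex.exp _), norm_phase, ENNReal.ofReal_one, mul_one]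

theorem comp_bdd (k : ℤ) {g : E 2 → ℂ} {B : ℝ} (hB : ∀ x, ‖g x‖ ≤ B) (x : E 2) :
    ‖comp k g x‖ ≤ B := by
  have hpi := Real.two_pi_pos
  have h := intervalIntegral.norm_integral_le_of_norm_le_const (a := 0) (b := 2 * Real.pi) (C := B)
    (f := fun φ => g (rot φ x) * Complex.exp (-((k * φ : ℝ) : ℂ) * Complex.I)) (fun φ _ => by
      rw [norm_mul, norm_phase, mul_one]
      exact hB _)
  rw [comp_eq, norm_mul, Complex.norm_real, Real.norm_of_nonneg (by positivity),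
    inv_mul_le_iff₀ hpi]
  refine h.trans (le_of_eq ?_)
  rw [sub_zero, abs_of_pos hpi, mul_comm]

theorem comp_Lq {q : ℝ} (hq : 1 ≤ q) (k : ℤ) {g : E 2 → ℂ} (hg : Measurable g) :
    ∫⁻ x, ‖comp k g x‖ₑ ^ q ≤ ∫⁻ x, ‖g x‖ₑ ^ q := by
  have hq0 : 0 < q := by linarith
  rw [avg_rot (fun x => ‖g x‖ₑ ^ q) (hg.enorm.pow_const q)]
  refine lintegral_mono fun x => ?_
  exact (ENNReal.rpow_le_rpow (comp_le_avg k g x) hq0.le).trans
    (jensen hq _ (rotg_meas hg x).enorm)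

theorem bessel (s : Finset ℤ) {g : E 2 → ℂ} (hg : Measurable g) :
    ∑ k ∈ s, ∫⁻ x, ‖comp k g x‖ₑ ^ 2 ≤ ∫⁻ x, ‖g x‖ₑ ^ 2 := by
  rw [avg_rot (fun x => ‖g x‖ₑ ^ 2) (hg.enorm.pow_const 2),
    ← lintegral_finsetSum s (fun k _ => ((comp_meas k hg).enorm.pow_const 2))]
  refine lintegral_mono fun x => ?_
  rcases eq_or_ne (msq fun φ => g (rot φ x)) ∞ with h | h
  · unfold msq at h
    rw [h]
    exact le_top
  · exact (circ2 _ (rotg_meas hg x) h).2.2 s

/-- a component restricted to a rotation invariant set -/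
theorem comp_ind (k : ℤ) (g : E 2 → ℂ) (S : Set (E 2)) (hS : ∀ φ x, rot φ x ∈ S ↔ x ∈ S) (x : E 2) :
    comp k (S.indicator g) x = S.indicator (comp k g) x := by
  by_cases hx : x ∈ S
  · rw [indicator_of_mem hx, comp_eq, comp_eq]
    congr 1
    apply intervalIntegral.integral_congr
    intro φ _
    beta_reduce
    rw [indicator_of_mem ((hS φ x).2 hx)]
  · rw [indicator_of_notMem hx, comp_eq]
    have : ∀ φ, S.indicator g (rot φ x) = 0 := fun φ =>
      indicator_of_notMem (fun h => hx ((hS φ x).1 h)) _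
    simp [this]

/-- orthogonality of functions which transform by different characters -/
theorem orth_sum (s : Finset ℤ) (S : Set (E 2)) (hSm : MeasurableSet S)
    (hS : ∀ φ x, rot φ x ∈ S ↔ x ∈ S) (G : ℤ → E 2 → ℂ) (hG : ∀ k, Measurable (G k))
    (hr : ∀ k φ x, G k (rot φ x) = Complex.exp (((k * φ : ℝ) : ℂ) * Complex.I) * G k x) :
    ∫⁻ x in S, ‖∑ k ∈ s, G k x‖ₑ ^ 2 = ∑ k ∈ s, ∫⁻ x in S, ‖G k x‖ₑ ^ 2 := by
  have hm : Measurable fun x => ‖∑ k ∈ s, G k x‖ₑ ^ 2 :=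
    (Finset.measurable_sum s fun k _ => hG k).enorm.pow_const 2
  rw [← lintegral_indicator hSm, avg_rot _ (hm.indicator hSm),
    ← lintegral_finsetSum s (fun k _ => ((hG k).enorm.pow_const 2)), ← lintegral_indicator hSm]
  refine lintegral_congr fun x => ?_
  by_cases hx : x ∈ S
  · rw [indicator_of_mem hx]
    have h1 : ∀ φ, S.indicator (fun x => ‖∑ k ∈ s, G k x‖ₑ ^ 2) (rot φ x) =
        ‖∑ k ∈ s, Complex.exp (((k * φ : ℝ) : ℂ) * Complex.I) * G k x‖ₑ ^ 2 := by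
      intro φ
      rw [indicator_of_mem ((hS φ x).2 hx)]
      simp only [hr]
    simp only [h1]
    exact parseval s fun k => G k x
  · rw [indicator_of_notMem hx]
    have h1 : ∀ φ, S.indicator (fun x => ‖∑ k ∈ s, G k x‖ₑ ^ 2) (rot φ x) = 0 := fun φ =>
      indicator_of_notMem (fun h => hx ((hS φ x).1 h)) _
    simp [h1]

end Pool.Agent.H243.RS
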