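import Mathlib
import Pool.Agent.H243.RP.Q15
import Pool.Agent.H243.RA.D4
set_option autoImplicit false

/-! Shell bounds for functions of one angular momentum. -/

open MeasureTheory Set Metric Filter Topology
open scoped ENNReal NNReal RealInnerProductSpace

namespace Pool.Agent.H243.RS

open Pool.Agent.W5h55.SH hiding e0 e0_norm
open Pool.Agent.H789R2.FR (E sg sg_finite sg_ae polar)
open Pool.Agent.H243.RA (jj kk jj_BD jj_cont shell_polar ga_tail)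
open Pool.Agent.H243.RP
open Pool.Agent.Y251.HR (shell shell_meas)

variable {d : ℕ}

theorem shell_of_TT (hd : 2 ≤ d) {p : ℝ} (hp : 0 < p) {l : ℕ} {f : E d → ℂ} (hfm : Measurable f)
    (hfi : Integrable f) (hA : Ang l f) (h0 : ∀ ξ, ¬ (1 / 2 < ‖ξ‖ ∧ ‖ξ‖ < 1) → f ξ = 0)
    {Λ : ℝ} (hΛ : 1 ≤ Λ) {A : ℝ} (hA0 : 0 ≤ A)
    (hTT : ∀ w : E d, ‖w‖ = 1 → ∫⁻ ρ in Ioc Λ (2 * Λ), ∫⁻ z : ℝ,
      ‖TT (jj d l) (dens f w) ρ z‖ₑ ^ p ≤ ENNReal.ofReal A * ∫⁻ t, ‖dens f w t‖ₑ ^ p) :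
    ∫⁻ x in shell d Λ, ∫⁻ z : ℝ, ‖X f x z‖ₑ ^ p ≤
      ENNReal.ofReal (2 ^ |(d : ℝ) - 1 - p * (d - 2) / 2| * Λ ^ ((d : ℝ) - 1 - p * (d - 2) / 2) * A *
        2 ^ d) * ∫⁻ ξ, ‖f ξ‖ₑ ^ p := by
  have hΛ0 : 0 < Λ := by linarith
  set a : ℝ := (d : ℝ) - 1 - p * (d - 2) / 2 with ha
  have h1 : ∀ ξ, 1 ≤ ‖ξ‖ → f ξ = 0 := fun ξ hξ => h0 ξ fun h => by linarith [h.2]
  have key : ∀ w : E d, ‖w‖ = 1 → ∫⁻ ρ in Ioc Λ (2 * Λ), ENNReal.ofReal (ρ ^ (d - 1)) *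
      ∫⁻ z : ℝ, ‖X f (ρ • w) z‖ₑ ^ p ≤
      ENNReal.ofReal (2 ^ |a| * Λ ^ a * A * 2 ^ d) * ray p f w := by
    intro w hw
    have key1 : ∀ ρ ∈ Ioc Λ (2 * Λ), ENNReal.ofReal (ρ ^ (d - 1)) *
        ∫⁻ z : ℝ, ‖X f (ρ • w) z‖ₑ ^ p ≤ ENNReal.ofReal (2 ^ |a| * Λ ^ a) *
        ∫⁻ z : ℝ, ‖TT (jj d l) (dens f w) ρ z‖ₑ ^ p := by
      intro ρ hρ
      have hρ0 : 0 < ρ := hΛ0.trans hρ.1
      have e1 : ∀ z, ‖X f (ρ • w) z‖ₑ ^ p = ENNReal.ofReal (ρ ^ (-(p * (d - 2) / 2))) *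
          ‖TT (jj d l) (dens f w) ρ z‖ₑ ^ p := by
        intro z
        rw [X_TT hd hfi hA h1 hρ0 w hw z, enorm_mul, enorm_mul, enorm_pow]
        have h2 : ‖-Complex.I‖ₑ = 1 := by
          rw [← ofReal_norm, norm_neg, Complex.norm_I, ENNReal.ofReal_one]
        have h3 : ‖((ρ ^ (-(((d : ℝ) - 2) / 2)) : ℝ) : ℂ)‖ₑ =
            ENNReal.ofReal (ρ ^ (-(((d : ℝ) - 2) / 2))) := by
          rw [← ofReal_norm, Complex.norm_real, Real.norm_of_nonneg (Real.rpow_nonneg hρ0.le _)]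
        rw [h2, one_pow, one_mul, h3, ENNReal.mul_rpow_of_nonneg _ _ hp.le,
          ENNReal.ofReal_rpow_of_pos (by positivity), ← Real.rpow_mul hρ0.le]
        congr 3
        ring
      simp_rw [e1]
      rw [lintegral_const_mul' _ _ ENNReal.ofReal_ne_top, ← mul_assoc,
        ← ENNReal.ofReal_mul (by positivity)]
      refine mul_le_mul' (ENNReal.ofReal_le_ofReal ?_) le_rfl
      have h4 : ρ ^ (d - 1) * ρ ^ (-(p * (d - 2) / 2)) = ρ ^ a := by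
        rw [← Real.rpow_natCast ρ (d - 1), ← Real.rpow_add hρ0, Nat.cast_sub (by omega)]
        congr 1
        rw [ha]
        push_cast
        ring
      rw [h4]
      exact rpow_shell hΛ0 hρ.1.le hρ.2 a
    calc ∫⁻ ρ in Ioc Λ (2 * Λ), ENNReal.ofReal (ρ ^ (d - 1)) * ∫⁻ z : ℝ, ‖X f (ρ • w) z‖ₑ ^ p
        ≤ ∫⁻ ρ in Ioc Λ (2 * Λ), ENNReal.ofReal (2 ^ |a| * Λ ^ a) *
            ∫⁻ z : ℝ, ‖TT (jj d l) (dens f w) ρ z‖ₑ ^ p := setLIntegral_mono' measurableSet_Ioc key1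
      _ = ENNReal.ofReal (2 ^ |a| * Λ ^ a) * ∫⁻ ρ in Ioc Λ (2 * Λ),
            ∫⁻ z : ℝ, ‖TT (jj d l) (dens f w) ρ z‖ₑ ^ p :=
          lintegral_const_mul' _ _ ENNReal.ofReal_ne_top
      _ ≤ ENNReal.ofReal (2 ^ |a| * Λ ^ a) * (ENNReal.ofReal A *
            (ENNReal.ofReal (2 ^ d) * ray p f w)) := by
          refine mul_le_mul' le_rfl ((hTT w hw).trans (mul_le_mul' le_rfl (dens_mass hd hp h0 w hw)))
      _ = _ := by
          rw [ENNReal.ofReal_mul (q := 2 ^ d) (by positivity),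
            ENNReal.ofReal_mul (q := A) (by positivity)]
          simp only [mul_assoc]
  rw [shell_polar (by omega) _ (XI_meas hfm p) hΛ0, polar (by omega) _ (hfm.enorm.pow_const p)]
  calc ∫⁻ w, (∫⁻ r in Ioc Λ (2 * Λ), ENNReal.ofReal (r ^ (d - 1)) *
        ∫⁻ z : ℝ, ‖X f (r • w) z‖ₑ ^ p) ∂(sg d)
      ≤ ∫⁻ w, ENNReal.ofReal (2 ^ |a| * Λ ^ a * A * 2 ^ d) * ray p f w ∂(sg d) := by
        apply lintegral_mono_ae
        filter_upwards [sg_ae d] with w hw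
        exact key w hw
    _ = _ := by
        rw [lintegral_const_mul' _ _ ENNReal.ofReal_ne_top]
        rfl

theorem dens_bdd (hd : 2 ≤ d) {f : E d → ℂ} {B : ℝ} (hB : ∀ ξ, ‖f ξ‖ ≤ B)
    (h0 : ∀ ξ, ¬ (1 / 2 < ‖ξ‖ ∧ ‖ξ‖ < 1) → f ξ = 0) (w : E d) (hw : ‖w‖ = 1) (t : ℝ) :
    ‖dens f w t‖ ≤ B := by
  by_cases ht : t ∈ Ioo (0 : ℝ) 1
  · exact (dens_le hd f w ht).trans (hB _)
  · rw [dens_cut h0 w hw, cut_zero _ t (fun h => ht ⟨by linarith [h.1], h.2⟩), norm_zero]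
    exact (norm_nonneg _).trans (hB 0)

theorem X_L2_shell (hd : 2 ≤ d) : ∃ K : ℝ, 0 < K ∧ ∀ (l : ℕ) (f : E d → ℂ), Measurable f →
    Integrable f → (∃ B, ∀ ξ, ‖f ξ‖ ≤ B) → Ang l f →
    (∀ ξ, ¬ (1 / 2 < ‖ξ‖ ∧ ‖ξ‖ < 1) → f ξ = 0) → ∀ Λ : ℝ, 1 ≤ Λ →
    ∫⁻ x in shell d Λ, ∫⁻ z : ℝ, ‖X f x z‖ₑ ^ 2 ≤
      ENNReal.ofReal (K * Λ) * ∫⁻ ξ, ‖f ξ‖ₑ ^ 2 := by
  obtain ⟨C, hC, hBD⟩ := jj_BD d hd
  have hpi := Real.pi_pos
  have hd2 : (2 : ℝ) ≤ d := by exact_mod_cast hd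
  refine ⟨2 * (4 * Real.pi * (C + C ^ 2)) * 2 ^ d, by positivity, ?_⟩
  rintro l f hfm hfi ⟨B, hB⟩ hA h0 Λ hΛ
  have hΛ0 : 0 < Λ := by linarith
  have h := shell_of_TT hd (p := 2) (by norm_num) hfm hfi hA h0 hΛ
    (A := 4 * Real.pi * (C + C ^ 2)) (by positivity) (by
      intro w hw
      have hjc := jj_cont d l hd
      obtain ⟨Cj, hCj⟩ : ∃ Cj : ℝ, ∀ y ∈ Icc (0 : ℝ) (2 * Λ), |jj d l y| ≤ Cj := by
        have := isCompact_Icc.exists_bound_of_continuousOn (s := Icc (0 : ℝ) (2 * Λ))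
          hjc.continuousOn
        simpa [Real.norm_eq_abs] using this
      have h2 := TT_l2 (hBD l) hC hjc.measurable hΛ (g := dens f w)
        ((dens_meas hfm).comp measurable_prodMk_left) (dens_bdd hd hB h0 w hw) (Cj := Cj) (by
          intro x hx t ht
          have ht0 : 0 < t := by linarith [ht.1]
          have hx0 : 0 < x := hΛ0.trans hx.1
          apply hCj
          have h1 : qs t ≤ 1 := qs_le_one ⟨ht0, ht.2⟩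
          refine ⟨by have := qs_pos ht0; positivity, ?_⟩
          calc x * qs t ≤ x * 1 := mul_le_mul_of_nonneg_left h1 hx0.le
            _ ≤ _ := by linarith [hx.2])
      rw [← dens_cut h0 w hw] at h2
      simpa only [ENNReal.rpow_two] using h2)
  simp only [ENNReal.rpow_two] at h
  have e : (d : ℝ) - 1 - 2 * (d - 2) / 2 = 1 := by ring
  rw [e, abs_one, Real.rpow_one, Real.rpow_one] at h
  refine h.trans (le_of_eq ?_)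
  congr 2
  ring

theorem X_L4_shell (hd : 2 ≤ d) (ε : ℝ) (hε : 0 < ε) (hε1 : ε < 1) : ∃ K : ℝ, 0 < K ∧
    ∀ (l : ℕ) (f : E d → ℂ), Measurable f →
    Integrable f → (∃ B, ∀ ξ, ‖f ξ‖ ≤ B) → Ang l f →
    (∀ ξ, ¬ (1 / 2 < ‖ξ‖ ∧ ‖ξ‖ < 1) → f ξ = 0) → ∀ Λ : ℝ, 1 ≤ Λ →
    ∫⁻ x in shell d Λ, ∫⁻ z : ℝ, ‖X f x z‖ₑ ^ 4 ≤
      ENNReal.ofReal (K * Λ ^ (1 - (d : ℝ) + ε)) * ∫⁻ ξ, ‖f ξ‖ₑ ^ 4 := by
  obtain ⟨C, hC, hBD⟩ := jj_BD d hd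
  obtain ⟨K, hK, hcore⟩ := core ε hε hε1 C hC
  have hd2 : (2 : ℝ) ≤ d := by exact_mod_cast hd
  refine ⟨2 ^ |(d : ℝ) - 1 - 4 * (d - 2) / 2| * K * 2 ^ d, by positivity, ?_⟩
  rintro l f hfm hfi ⟨B, hB⟩ hA h0 Λ hΛ
  have hΛ0 : 0 < Λ := by linarith
  have hr4 : ∀ x : ℝ≥0∞, x ^ (4 : ℝ) = x ^ (4 : ℕ) := fun x => by
    rw [← ENNReal.rpow_natCast]
    norm_num
  have h := shell_of_TT hd (p := 4) (by norm_num) hfm hfi hA h0 hΛ
    (A := K * Λ ^ (-2 + ε)) (by positivity) (by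
      intro w hw
      have hjm := (jj_cont d l hd).measurable
      have hkm : Measurable (kk d l) := by
        have h1 := (phi_cont (2 * l + d) (by omega)).measurable
        have h2 := (phi_cont (2 * l + d + 2) (by omega)).measurable
        unfold kk
        fun_prop
      have h2 := hcore (Pool.Agent.H243.RA.nu d l) (jj d l) (kk d l) (hBD l) hjm hkm Λ hΛ
        (dens f w) B ((dens_meas hfm).comp measurable_prodMk_left) (dens_bdd hd hB h0 w hw)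
        (fun t ht => by rw [dens_cut h0 w hw]; exact cut_zero _ t ht)
      simp only [hr4]
      exact h2)
  simp only [hr4] at h
  refine h.trans (le_of_eq ?_)
  congr 2
  have e : Λ ^ ((d : ℝ) - 1 - 4 * (d - 2) / 2) * Λ ^ (-2 + ε) = Λ ^ (1 - (d : ℝ) + ε) := by
    rw [← Real.rpow_add hΛ0]
    congr 1
    ring
  rw [← e]
  ring

end Pool.Agent.H243.RS
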