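import Mathlib
import Pool.Agent.H243.RS.G4
import Pool.Agent.H243.RS.G5
set_option autoImplicit false

/-! `L^q` bound on shells for finite sets of angular frequencies. -/

open MeasureTheory Set Metric Filter Topology
open scoped ENNReal NNReal RealInnerProductSpace

namespace Pool.Agent.H243.RS

open Pool.Agent.H789R2.FR (E)
open Pool.Agent.H243.RP
open Pool.Agent.Y251.HR (shell shell_meas)

/-- the annulus -/
def A1 : Set (E 2) := {ξ | 1 / 2 < ‖ξ‖ ∧ ‖ξ‖ < 1}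

theorem A1_meas : MeasurableSet A1 :=
  (measurableSet_lt measurable_const measurable_norm).inter
    (measurableSet_lt measurable_norm measurable_const)

theorem A1_rot (φ : ℝ) (x : E 2) : rot φ x ∈ A1 ↔ x ∈ A1 := by
  unfold A1
  simp only [mem_ofPred_eq, rot_norm]

theorem shell_rot (Λ φ : ℝ) (x : E 2) : rot φ x ∈ shell 2 Λ ↔ x ∈ shell 2 Λ := by
  unfold shell
  simp only [mem_ofPred_eq, rot_norm]

theorem A1_vol : volume A1 < ∞ :=
  lt_of_le_of_lt (measure_mono (fun ξ hξ => by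
    rw [mem_ball_zero_iff]
    exact hξ.2)) (measure_ball_lt_top (x := (0 : E 2)) (r := 1))

theorem ind_int {g : E 2 → ℂ} (hg : Measurable g) {B : ℝ} (hB : ∀ ξ, ‖g ξ‖ ≤ B) :
    Integrable (A1.indicator g) := by
  rw [integrable_indicator_iff A1_meas]
  exact IntegrableOn.of_bound A1_vol hg.aestronglyMeasurable B (Eventually.of_forall fun ξ => hB ξ)

theorem ker_meas1 (k : ℤ) (x : E 2) (z : ℝ) : Measurable fun ξ : E 2 => ker k x z ξ := by
  have h1 : Measurable fun ξ : E 2 => ((x, z, ξ) : E 2 × ℝ × E 2) :=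
    measurable_const.prodMk (measurable_const.prodMk measurable_id)
  have h2 := (ker_meas k).comp h1
  exact h2

theorem ker_meas2 (k : ℤ) : Measurable fun q : (E 2 × ℝ) × E 2 => ker k q.1.1 q.1.2 q.2 := by
  have h1 : Measurable fun q : (E 2 × ℝ) × E 2 => ((q.1.1, q.1.2, q.2) : E 2 × ℝ × E 2) :=
    (measurable_fst.comp measurable_fst).prodMk
      ((measurable_snd.comp measurable_fst).prodMk measurable_snd)
  have h2 := (ker_meas k).comp h1
  exact h2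

/-- the operator -/
noncomputable def op (F : Finset ℤ) (g : E 2 → ℂ) (p : E 2 × ℝ) : ℝ≥0∞ :=
  ‖∫ ξ, (A1.indicator (fun ξ => ∑ k ∈ F, ker k p.1 p.2 ξ)) ξ * g ξ‖ₑ

theorem op_eq (F : Finset ℤ) {g : E 2 → ℂ} (hg : Measurable g) (hi : Integrable (A1.indicator g))
    (p : E 2 × ℝ) : op F g p = ‖∑ k ∈ F, X (comp k (A1.indicator g)) p.1 p.2‖ₑ := by
  unfold op
  congr 1
  have hm : Measurable (A1.indicator g) := hg.indicator A1_meas
  have h1 : ∀ k, Integrable fun ξ => ker k p.1 p.2 ξ * A1.indicator g ξ := by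
    intro k
    apply hi.bdd_mul (c := 1)
    · exact (ker_meas1 k p.1 p.2).aestronglyMeasurable
    · exact Eventually.of_forall fun ξ => ker_le _ _ _ _
  simp_rw [X_comp_ker _ hm hi]
  rw [← integral_finsetSum F fun k _ => h1 k]
  refine integral_congr_ae (Eventually.of_forall fun ξ => ?_)
  beta_reduce
  by_cases hx : ξ ∈ A1
  · rw [indicator_of_mem hx, indicator_of_mem hx, Finset.sum_mul]
  · rw [indicator_of_notMem hx, indicator_of_notMem hx, zero_mul]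
    simp

theorem op_meas (F : Finset ℤ) {g : E 2 → ℂ} (hg : Measurable g) : Measurable (op F g) := by
  unfold op
  apply Measurable.enorm
  apply StronglyMeasurable.measurable
  apply StronglyMeasurable.integral_prod_right (f := fun (p : E 2 × ℝ) (ξ : E 2) =>
    (A1.indicator (fun ξ => ∑ k ∈ F, ker k p.1 p.2 ξ)) ξ * g ξ)
  apply Measurable.stronglyMeasurable
  apply Measurable.mul _ (hg.comp measurable_snd)
  have h1 : Measurable fun q : (E 2 × ℝ) × E 2 => ∑ k ∈ F, ker k q.1.1 q.1.2 q.2 := by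
    apply Finset.measurable_sum
    intro k _
    exact ker_meas2 k
  have h2 : MeasurableSet {q : (E 2 × ℝ) × E 2 | q.2 ∈ A1} := measurable_snd A1_meas
  have h3 : (fun q : (E 2 × ℝ) × E 2 => A1.indicator (fun ξ => ∑ k ∈ F, ker k q.1.1 q.1.2 ξ) q.2) =
      {q : (E 2 × ℝ) × E 2 | q.2 ∈ A1}.indicator fun q => ∑ k ∈ F, ker k q.1.1 q.1.2 q.2 := by
    funext q
    by_cases hq : q.2 ∈ A1
    · have hq' : q ∈ {q : (E 2 × ℝ) × E 2 | q.2 ∈ A1} := hq
      rw [indicator_of_mem hq, indicator_of_mem hq']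
    · have hq' : q ∉ {q : (E 2 × ℝ) × E 2 | q.2 ∈ A1} := hq
      rw [indicator_of_notMem hq, indicator_of_notMem hq']
  have h4 : Measurable fun q : (E 2 × ℝ) × E 2 =>
      A1.indicator (fun ξ => ∑ k ∈ F, ker k q.1.1 q.1.2 ξ) q.2 := by
    rw [h3]
    exact h1.indicator h2
  exact h4

theorem op_sub (F : Finset ℤ) {g : E 2 → ℂ} (hg : Measurable g) (p : E 2 × ℝ) :
    op F g p ≤ ∑' k, op F (lev g k) p := split_le volume hg _

theorem comp_supp (k : ℤ) (g : E 2 → ℂ) (ξ : E 2) (h : ¬ (1 / 2 < ‖ξ‖ ∧ ‖ξ‖ < 1)) :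
    comp k (A1.indicator g) ξ = 0 := by
  rw [comp_ind k g A1 A1_rot]
  exact indicator_of_notMem (show ξ ∉ A1 from h) (comp k g)

theorem comp_int (k : ℤ) {g : E 2 → ℂ} (hg : Measurable g) {B : ℝ} (hB : ∀ ξ, ‖g ξ‖ ≤ B) :
    Integrable (comp k (A1.indicator g)) := by
  have : comp k (A1.indicator g) = A1.indicator (comp k g) := funext (comp_ind k g A1 A1_rot)
  rw [this]
  exact ind_int (comp_meas k hg) (comp_bdd k hB)

theorem ind_pow_le (g : E 2 → ℂ) (m : ℕ) : ∫⁻ ξ, ‖A1.indicator g ξ‖ₑ ^ m ≤ ∫⁻ ξ, ‖g ξ‖ₑ ^ m := by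
  refine lintegral_mono fun ξ => pow_le_pow_left' ?_ m
  rw [← ofReal_norm, ← ofReal_norm]
  exact ENNReal.ofReal_le_ofReal (norm_indicator_le_norm_self g ξ)

theorem op_L2 : ∃ K : ℝ, 0 < K ∧ ∀ (F : Finset ℤ) (g : E 2 → ℂ), Measurable g →
    (∃ B, ∀ ξ, ‖g ξ‖ ≤ B) → ∀ Λ : ℝ, 1 ≤ Λ →
    ∫⁻ p, op F g p ^ 2 ∂((volume.restrict (shell 2 Λ)).prod (volume : Measure ℝ)) ≤
      ENNReal.ofReal (K * Λ) * ∫⁻ ξ, ‖g ξ‖ₑ ^ 2 := by
  obtain ⟨K, hK, h⟩ := X_L2_shell (d := 2) le_rfl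
  refine ⟨K, hK, ?_⟩
  rintro F g hg ⟨B, hB⟩ Λ hΛ
  have hi := ind_int hg hB
  have hm : Measurable (A1.indicator g) := hg.indicator A1_meas
  have hcm : ∀ k, Measurable (comp k (A1.indicator g)) := fun k => comp_meas k hm
  have hib : ∀ ξ, ‖A1.indicator g ξ‖ ≤ B := fun ξ => (norm_indicator_le_norm_self g ξ).trans (hB ξ)
  have hop : ∀ p, op F g p = ‖∑ k ∈ F, X (comp k (A1.indicator g)) p.1 p.2‖ₑ := op_eq F hg hi
  simp only [hop]
  have hXm : ∀ k, Measurable fun p : E 2 × ℝ => X (comp k (A1.indicator g)) p.1 p.2 :=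
    fun k => X_meas (hcm k)
  have hsm : Measurable fun p : E 2 × ℝ => ‖∑ k ∈ F, X (comp k (A1.indicator g)) p.1 p.2‖ₑ ^ 2 :=
    (Finset.measurable_sum F fun k _ => hXm k).enorm.pow_const 2
  rw [lintegral_prod_symm _ hsm.aemeasurable]
  calc ∫⁻ z : ℝ, ∫⁻ x in shell 2 Λ, ‖∑ k ∈ F, X (comp k (A1.indicator g)) x z‖ₑ ^ 2
      = ∫⁻ z : ℝ, ∑ k ∈ F, ∫⁻ x in shell 2 Λ, ‖X (comp k (A1.indicator g)) x z‖ₑ ^ 2 := by
        refine lintegral_congr fun z => ?_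
        have a1 : ∀ k, Measurable fun x : E 2 => X (comp k (A1.indicator g)) x z := by
          intro k
          have a2 := (hXm k).comp (measurable_prodMk_right (y := z))
          exact a2
        have a3 := orth_sum F (shell 2 Λ) (shell_meas Λ) (shell_rot Λ)
          (fun k x => X (comp k (A1.indicator g)) x z) a1
          (fun k φ x => X_comp_rot k hm hi φ x z)
        exact a3
    _ = ∑ k ∈ F, ∫⁻ x in shell 2 Λ, ∫⁻ z : ℝ, ‖X (comp k (A1.indicator g)) x z‖ₑ ^ 2 := by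
        have hm2 : ∀ k, Measurable (Function.uncurry fun (z : ℝ) (x : E 2) =>
            ‖X (comp k (A1.indicator g)) x z‖ₑ ^ 2) := by
          intro k
          have a2 := ((hXm k).comp measurable_swap).enorm.pow_const 2
          exact a2
        have hm3 : ∀ k, Measurable fun z : ℝ =>
            ∫⁻ x in shell 2 Λ, ‖X (comp k (A1.indicator g)) x z‖ₑ ^ 2 := fun k =>
          (hm2 k).lintegral_prod_right'
        rw [lintegral_finsetSum F fun k _ => hm3 k]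
        refine Finset.sum_congr rfl fun k _ => ?_
        exact lintegral_lintegral_swap (hm2 k).aemeasurable
    _ ≤ ∑ k ∈ F, ENNReal.ofReal (K * Λ) * ∫⁻ ξ, ‖comp k (A1.indicator g) ξ‖ₑ ^ 2 := by
        refine Finset.sum_le_sum fun k _ => ?_
        exact h k.natAbs _ (hcm k) (comp_int k hg hB) ⟨B, comp_bdd k hib⟩ (comp_Ang k _)
          (comp_supp k g) Λ hΛ
    _ = ENNReal.ofReal (K * Λ) * ∑ k ∈ F, ∫⁻ ξ, ‖comp k (A1.indicator g) ξ‖ₑ ^ 2 := by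
        rw [Finset.mul_sum]
    _ ≤ ENNReal.ofReal (K * Λ) * ∫⁻ ξ, ‖g ξ‖ₑ ^ 2 :=
        mul_le_mul' le_rfl ((bessel F hm).trans (ind_pow_le g 2))

theorem op_L4 (ε : ℝ) (hε : 0 < ε) (hε1 : ε < 1) : ∃ K : ℝ, 0 < K ∧
    ∀ (F : Finset ℤ) (g : E 2 → ℂ), Measurable g →
    (∃ B, ∀ ξ, ‖g ξ‖ ≤ B) → ∀ Λ : ℝ, 1 ≤ Λ →
    ∫⁻ p, op F g p ^ 4 ∂((volume.restrict (shell 2 Λ)).prod (volume : Measure ℝ)) ≤
      ENNReal.ofReal ((F.card : ℝ) ^ 4 * (K * Λ ^ (-1 + ε))) * ∫⁻ ξ, ‖g ξ‖ₑ ^ 4 := by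
  obtain ⟨K, hK, h⟩ := X_L4_shell (d := 2) le_rfl ε hε hε1
  have e1 : (1 : ℝ) - ((2 : ℕ) : ℝ) + ε = -1 + ε := by push_cast; ring
  rw [e1] at h
  refine ⟨K, hK, ?_⟩
  rintro F g hg ⟨B, hB⟩ Λ hΛ
  have hi := ind_int hg hB
  have hm : Measurable (A1.indicator g) := hg.indicator A1_meas
  have hcm : ∀ k, Measurable (comp k (A1.indicator g)) := fun k => comp_meas k hm
  have hib : ∀ ξ, ‖A1.indicator g ξ‖ ≤ B := fun ξ => (norm_indicator_le_norm_self g ξ).trans (hB ξ)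
  have hXm : ∀ k, Measurable fun p : E 2 × ℝ => X (comp k (A1.indicator g)) p.1 p.2 :=
    fun k => X_meas (hcm k)
  have hr4 : ∀ x : ℝ≥0∞, x ^ (4 : ℝ) = x ^ (4 : ℕ) := fun x => by
    rw [← ENNReal.rpow_natCast]
    norm_num
  have key : ∀ p : E 2 × ℝ, op F g p ^ 4 ≤ (F.card : ℝ≥0∞) ^ 3 *
      ∑ k ∈ F, ‖X (comp k (A1.indicator g)) p.1 p.2‖ₑ ^ 4 := by
    intro p
    rw [op_eq F hg hi]
    have h1 : ‖∑ k ∈ F, X (comp k (A1.indicator g)) p.1 p.2‖ₑ ≤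
        ∑ k ∈ F, ‖X (comp k (A1.indicator g)) p.1 p.2‖ₑ := enorm_sum_le _ _
    have h2 := ENNReal.rpow_sum_le_const_mul_sum_rpow F
      (fun k => ‖X (comp k (A1.indicator g)) p.1 p.2‖ₑ) (p := 4) (by norm_num)
    simp only [hr4] at h2
    have h3 : (F.card : ℝ≥0∞) ^ ((4 : ℝ) - 1) = (F.card : ℝ≥0∞) ^ 3 := by
      rw [← ENNReal.rpow_natCast]
      norm_num
    rw [h3] at h2
    exact (pow_le_pow_left' h1 4).trans h2
  have hprod : ∀ k, ∫⁻ p, ‖X (comp k (A1.indicator g)) p.1 p.2‖ₑ ^ 4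
      ∂((volume.restrict (shell 2 Λ)).prod (volume : Measure ℝ)) =
      ∫⁻ x in shell 2 Λ, ∫⁻ z : ℝ, ‖X (comp k (A1.indicator g)) x z‖ₑ ^ 4 := fun k =>
    lintegral_prod _ ((hXm k).enorm.pow_const 4).aemeasurable
  have hcard : ((F.card : ℝ≥0∞)) = ENNReal.ofReal (F.card : ℝ) := by simp
  calc ∫⁻ p, op F g p ^ 4 ∂((volume.restrict (shell 2 Λ)).prod (volume : Measure ℝ))
      ≤ ∫⁻ p, (F.card : ℝ≥0∞) ^ 3 * ∑ k ∈ F, ‖X (comp k (A1.indicator g)) p.1 p.2‖ₑ ^ 4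
        ∂((volume.restrict (shell 2 Λ)).prod (volume : Measure ℝ)) := lintegral_mono key
    _ = (F.card : ℝ≥0∞) ^ 3 * ∑ k ∈ F, ∫⁻ x in shell 2 Λ, ∫⁻ z : ℝ,
          ‖X (comp k (A1.indicator g)) x z‖ₑ ^ 4 := by
        rw [lintegral_const_mul' _ _ (ENNReal.pow_ne_top (ENNReal.natCast_ne_top _)),
          lintegral_finsetSum F fun k _ => ((hXm k).enorm.pow_const 4)]
        simp_rw [hprod]
    _ ≤ (F.card : ℝ≥0∞) ^ 3 * ∑ _k ∈ F, ENNReal.ofReal (K * Λ ^ (-1 + ε)) *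
          ∫⁻ ξ, ‖g ξ‖ₑ ^ 4 := by
        refine mul_le_mul' le_rfl (Finset.sum_le_sum fun k _ => ?_)
        refine (h k.natAbs _ (hcm k) (comp_int k hg hB) ⟨B, comp_bdd k hib⟩ (comp_Ang k _)
          (comp_supp k g) Λ hΛ).trans (mul_le_mul' le_rfl ?_)
        have h5 := comp_Lq (q := 4) (by norm_num) k hm
        simp only [hr4] at h5
        exact h5.trans (ind_pow_le g 4)
    _ = _ := by
        rw [Finset.sum_const, nsmul_eq_mul, hcard, ← mul_assoc, ← mul_assoc,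
          ← ENNReal.ofReal_pow (by positivity), ← ENNReal.ofReal_mul (by positivity),
          ← ENNReal.ofReal_mul (by positivity)]
        congr 2

/-- the `L^q` bound for finitely many frequencies -/
theorem op_Lq (q ε : ℝ) (hq2 : 2 < q) (hq4 : q < 4) (hε : 0 < ε) (hε1 : ε < 1) :
    ∃ K : ℝ, 0 < K ∧ ∀ (F : Finset ℤ) (n : ℝ), 1 ≤ n → (F.card : ℝ) ≤ n → ∀ Λ : ℝ, 1 ≤ Λ →
    ∀ g : E 2 → ℂ, Measurable g →
    ∫⁻ p, op F g p ^ q ∂((volume.restrict (shell 2 Λ)).prod (volume : Measure ℝ)) ≤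
      ENNReal.ofReal (K * n ^ (2 * (q - 2)) * Λ ^ (3 - q + ε * (q - 2) / 2)) *
        ∫⁻ ξ, ‖g ξ‖ₑ ^ q := by
  obtain ⟨Ci, hCi0, hCi⟩ := interp_op q hq2 hq4
  obtain ⟨K2, hK2, h2⟩ := op_L2
  obtain ⟨K4, hK4, h4⟩ := op_L4 ε hε hε1
  refine ⟨Ci * (K4 + K2), by positivity, ?_⟩
  intro F n hn hF Λ hΛ g hg
  have hΛ0 : 0 < Λ := by linarith
  have hn0 : 0 < n := by linarith
  set lam : ℝ := n ^ 2 * Λ ^ (-(1 - ε / 2)) with hlam
  have hlam0 : 0 < lam := by positivity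
  have hmain := hCi (E 2) (E 2 × ℝ) volume ((volume.restrict (shell 2 Λ)).prod (volume : Measure ℝ))
    (op F) (K2 * Λ) (n ^ 4 * (K4 * Λ ^ (-1 + ε))) lam (by positivity) (by positivity) hlam0
    (fun g hg => op_meas F hg) (fun g hg p => op_sub F hg p)
    (fun g hg hb => h2 F g hg hb Λ hΛ)
    (fun g hg hb => (h4 F g hg hb Λ hΛ).trans (by
      gcongr)) g hg
  refine hmain.trans ?_
  refine mul_le_mul' (ENNReal.ofReal_le_ofReal ?_) le_rfl
  apply le_of_eq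
  have e0 : ∀ a : ℝ, lam ^ a = n ^ (2 * a) * Λ ^ (-(1 - ε / 2) * a) := by
    intro a
    rw [hlam, Real.mul_rpow (by positivity) (by positivity), ← Real.rpow_mul hΛ0.le,
      ← Real.rpow_natCast n 2, ← Real.rpow_mul hn0.le]
    norm_num
  have e1 : lam ^ (q - 4) * (n ^ 4 * (K4 * Λ ^ (-1 + ε))) =
      K4 * n ^ (2 * (q - 2)) * Λ ^ (3 - q + ε * (q - 2) / 2) := by
    rw [e0]
    have h5 : n ^ (2 * (q - 4)) * n ^ 4 = n ^ (2 * (q - 2)) := by
      rw [← Real.rpow_natCast n 4, ← Real.rpow_add hn0]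
      congr 1
      push_cast
      ring
    have h6 : Λ ^ (-(1 - ε / 2) * (q - 4)) * Λ ^ (-1 + ε) = Λ ^ (3 - q + ε * (q - 2) / 2) := by
      rw [← Real.rpow_add hΛ0]
      congr 1
      ring
    rw [← h5, ← h6]
    ring
  have e2 : lam ^ (q - 2) * (K2 * Λ) = K2 * n ^ (2 * (q - 2)) * Λ ^ (3 - q + ε * (q - 2) / 2) := by
    rw [e0]
    have h6 : Λ ^ (-(1 - ε / 2) * (q - 2)) * Λ = Λ ^ (3 - q + ε * (q - 2) / 2) := by
      nth_rewrite 2 [← Real.rpow_one Λ]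
      rw [← Real.rpow_add hΛ0]
      congr 1
      ring
    rw [← h6]
    ring
  rw [e1, e2]
  ring

end Pool.Agent.H243.RS
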