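import Mathlib
import Pool.Agent.H243.RA.F4
import Pool.Agent.H243.RP.Q17
import Pool.Agent.H243.RS.G6
set_option autoImplicit false

/-! Large angular frequencies, and the expansion of the extension. -/

open MeasureTheory Set Metric Filter Topology
open scoped ENNReal NNReal RealInnerProductSpace

namespace Pool.Agent.H243.RS

open Pool.Agent.W5h55.SH hiding e0 e0_norm
open Pool.Agent.H789R2.FR (E sg sg_finite sg_ae polar)
open Pool.Agent.H243.RA (shell_polar ga_tail fr fr_tendsto fr_sum)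
open Pool.Agent.H243.RP
open Pool.Agent.Y251.HR (shell shell_meas)

/-- the bound for large degree on a shell -/
theorem tail_shell {d : ℕ} (hd : 2 ≤ d) (q : ℝ) (hq : 2 ≤ q) : ∃ K : ℝ, 0 < K ∧
    ∀ (l : ℕ) (f : E d → ℂ), Measurable f → Integrable f → Ang l f →
    (∀ ξ, ¬ (1 / 2 < ‖ξ‖ ∧ ‖ξ‖ < 1) → f ξ = 0) → ∀ Λ : ℝ, 1 ≤ Λ → 16 * Λ ≤ l →
    ∫⁻ x in shell d Λ, ∫⁻ z : ℝ, ‖X f x z‖ₑ ^ q ≤
      ENNReal.ofReal (K * Λ ^ d * ((1 / 2) ^ l) ^ q) * ∫⁻ ξ, ‖f ξ‖ₑ ^ q := by
  have hpi := Real.pi_pos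
  have hq0 : 0 < q := by linarith
  have har : 0 < ar d := ar_pos (by omega)
  refine ⟨2 * Real.pi * ar d ^ q * 2 ^ d * 2 ^ d, by positivity, ?_⟩
  intro l f hfm hfi hA h0 Λ hΛ hl
  have hΛ0 : 0 < Λ := by linarith
  have h1 : ∀ ξ, 1 ≤ ‖ξ‖ → f ξ = 0 := fun ξ hξ => h0 ξ fun h => by linarith [h.2]
  set b : ℝ := ar d * (1 / 2) ^ l with hb
  have hb0 : 0 < b := by positivity
  have key : ∀ w : E d, ‖w‖ = 1 → ∀ ρ ∈ Ioc Λ (2 * Λ), ENNReal.ofReal (ρ ^ (d - 1)) *
      ∫⁻ z : ℝ, ‖X f (ρ • w) z‖ₑ ^ q ≤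
      ENNReal.ofReal ((2 * Λ) ^ (d - 1) * (2 * Real.pi * b ^ q * 2 ^ d)) * ray q f w := by
    intro w hw ρ hρ
    have hρ0 : 0 < ρ := hΛ0.trans hρ.1
    set h : ℝ → ℂ := (Ioo (0 : ℝ) 1).indicator fun t =>
      ((qs t ^ (d - 2) / 2 * ga d l (ρ * qs t) : ℝ) : ℂ) * f (qs t • w) with hh
    have hhm : Measurable h := by
      apply Measurable.indicator _ measurableSet_Ioo
      apply Measurable.mul
      · apply Complex.measurable_ofReal.comp
        apply Measurable.mul ((qs_meas.pow_const _).div_const _)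
        exact (ga_cont (by omega) l).measurable.comp (qs_meas.const_mul ρ)
      · exact hfm.comp (qs_meas.smul_const w)
    have e1 : ∀ z, ‖X f (ρ • w) z‖ₑ =
        ‖∫ t, Complex.exp (-((z * t : ℝ) : ℂ) * Complex.I) * h t‖ₑ := by
      intro z
      rw [X_ga hd hfi hA h1 hρ0.le w hw z, enorm_mul, enorm_pow]
      have h2 : ‖-Complex.I‖ₑ = 1 := by
        rw [← ofReal_norm, norm_neg, Complex.norm_I, ENNReal.ofReal_one]
      rw [h2, one_pow, one_mul, ← integral_indicator measurableSet_Ioo]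
      congr 2
      funext t
      rw [hh]
      by_cases ht : t ∈ Ioo (0 : ℝ) 1
      · rw [indicator_of_mem ht, indicator_of_mem ht]
      · rw [indicator_of_notMem ht, indicator_of_notMem ht, mul_zero]
    simp_rw [e1]
    have h3 := hy_q q hq h hhm (fun t ht => indicator_of_notMem ht _)
    have h4 : ∫⁻ t, ‖h t‖ₑ ^ q ≤ ENNReal.ofReal (b ^ q) *
        ∫⁻ t in Ioo (0 : ℝ) 1, ‖f (qs t • w)‖ₑ ^ q := by
      rw [← lintegral_const_mul' _ _ ENNReal.ofReal_ne_top, ← lintegral_indicator measurableSet_Ioo]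
      refine lintegral_mono fun t => ?_
      by_cases ht : t ∈ Ioo (0 : ℝ) 1
      · rw [hh, indicator_of_mem ht, indicator_of_mem ht, enorm_mul,
          ENNReal.mul_rpow_of_nonneg _ _ hq0.le, ← ENNReal.ofReal_rpow_of_pos (by positivity)]
        refine mul_le_mul' (ENNReal.rpow_le_rpow ?_ hq0.le) le_rfl
        rw [← ofReal_norm, Complex.norm_real]
        apply ENNReal.ofReal_le_ofReal
        have hqp := qs_pos ht.1
        rw [norm_mul, Real.norm_of_nonneg (by positivity), Real.norm_eq_abs]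
        have hρq : ρ * qs t ≤ 2 * Λ := by
          calc ρ * qs t ≤ ρ * 1 := mul_le_mul_of_nonneg_left (qs_le_one ht) hρ0.le
            _ ≤ 2 * Λ := by linarith [hρ.2]
        have h5 := ga_tail hd l (ρ * qs t) (by positivity) (by linarith)
        have h6 : qs t ^ (d - 2) ≤ 1 := pow_le_one₀ hqp.le (qs_le_one ht)
        calc qs t ^ (d - 2) / 2 * |ga d l (ρ * qs t)| ≤ 1 * b := by
              apply mul_le_mul (by linarith) h5 (abs_nonneg _) zero_le_one
          _ = b := one_mul b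
      · rw [hh, indicator_of_notMem ht, indicator_of_notMem ht, enorm_zero,
          ENNReal.zero_rpow_of_pos hq0]
    have h7 : ENNReal.ofReal (ρ ^ (d - 1)) ≤ ENNReal.ofReal ((2 * Λ) ^ (d - 1)) :=
      ENNReal.ofReal_le_ofReal (pow_le_pow_left₀ hρ0.le hρ.2 _)
    calc ENNReal.ofReal (ρ ^ (d - 1)) * ∫⁻ z : ℝ,
          ‖∫ t, Complex.exp (-((z * t : ℝ) : ℂ) * Complex.I) * h t‖ₑ ^ q
        ≤ ENNReal.ofReal ((2 * Λ) ^ (d - 1)) * (ENNReal.ofReal (2 * Real.pi) *
            (ENNReal.ofReal (b ^ q) * (ENNReal.ofReal (2 ^ d) * ray q f w))) := by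
          refine mul_le_mul' h7 (h3.trans (mul_le_mul' le_rfl (h4.trans (mul_le_mul' le_rfl ?_))))
          exact ray_sub hd hq0 h0 w hw
      _ = _ := by
          rw [ENNReal.ofReal_mul (p := (2 * Λ) ^ (d - 1)) (by positivity),
            ENNReal.ofReal_mul (q := 2 ^ d) (by positivity),
            ENNReal.ofReal_mul (q := b ^ q) (by positivity)]
          simp only [mul_assoc]
  rw [shell_polar (by omega) _ (XI_meas hfm q) hΛ0, polar (by omega) _ (hfm.enorm.pow_const q)]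
  calc ∫⁻ w, (∫⁻ r in Ioc Λ (2 * Λ), ENNReal.ofReal (r ^ (d - 1)) *
        ∫⁻ z : ℝ, ‖X f (r • w) z‖ₑ ^ q) ∂(sg d)
      ≤ ∫⁻ w, ENNReal.ofReal (2 * Real.pi * ar d ^ q * 2 ^ d * 2 ^ d * Λ ^ d * ((1 / 2) ^ l) ^ q) *
          ray q f w ∂(sg d) := by
        apply lintegral_mono_ae
        filter_upwards [sg_ae d] with w hw
        calc ∫⁻ r in Ioc Λ (2 * Λ), ENNReal.ofReal (r ^ (d - 1)) *
              ∫⁻ z : ℝ, ‖X f (r • w) z‖ₑ ^ q
            ≤ ∫⁻ _r in Ioc Λ (2 * Λ),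
              ENNReal.ofReal ((2 * Λ) ^ (d - 1) * (2 * Real.pi * b ^ q * 2 ^ d)) * ray q f w :=
              setLIntegral_mono' measurableSet_Ioc (key w hw)
          _ = ENNReal.ofReal ((2 * Λ) ^ (d - 1) * (2 * Real.pi * b ^ q * 2 ^ d) * Λ) *
              ray q f w := by
              rw [setLIntegral_const, Real.volume_Ioc, mul_assoc, mul_comm (ray q f w), ← mul_assoc,
                ← ENNReal.ofReal_mul (by positivity)]
              congr 3
              ring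
          _ ≤ _ := by
              refine mul_le_mul' (ENNReal.ofReal_le_ofReal ?_) le_rfl
              have e2 : b ^ q = ar d ^ q * ((1 / 2) ^ l) ^ q := by
                rw [hb, Real.mul_rpow har.le (by positivity)]
              have e3 : (2 * Λ) ^ (d - 1) * Λ ≤ 2 ^ d * Λ ^ d := by
                obtain ⟨m, rfl⟩ : ∃ m, d = m + 1 := ⟨d - 1, by omega⟩
                rw [Nat.add_sub_cancel, mul_pow, pow_succ, pow_succ]
                have : 0 < (2 : ℝ) ^ m * Λ ^ m * Λ := by positivity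
                nlinarith
              rw [e2]
              calc (2 * Λ) ^ (d - 1) * (2 * Real.pi * (ar d ^ q * ((1 / 2) ^ l) ^ q) * 2 ^ d) * Λ
                  = ((2 * Λ) ^ (d - 1) * Λ) *
                    (2 * Real.pi * (ar d ^ q * ((1 / 2) ^ l) ^ q) * 2 ^ d) := by ring
                _ ≤ (2 ^ d * Λ ^ d) *
                    (2 * Real.pi * (ar d ^ q * ((1 / 2) ^ l) ^ q) * 2 ^ d) := by gcongr
                _ = _ := by ring
    _ = _ := by
        rw [lintegral_const_mul' _ _ ENNReal.ofReal_ne_top]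
        rfl

theorem sq_half {a b c : ℝ≥0∞} (h : a ^ 2 ≤ b ^ 2 * c) : a ≤ b * c ^ (1 / 2 : ℝ) := by
  have h1 : ∀ y : ℝ≥0∞, (y ^ 2) ^ (1 / 2 : ℝ) = y := by
    intro y
    rw [← ENNReal.rpow_two, ← ENNReal.rpow_mul, mul_one_div_cancel two_ne_zero, ENNReal.rpow_one]
  have h2 := ENNReal.rpow_le_rpow h (z := 1 / 2) (by norm_num)
  rwa [ENNReal.mul_rpow_of_nonneg _ _ (by norm_num), h1, h1] at h2

/-- `L¹` convergence of the angular expansion -/
theorem four_lim {f : E 2 → ℂ} (hf : Measurable f) {R : ℝ} (h0 : ∀ ξ, R < ‖ξ‖ → f ξ = 0)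
    (h2 : ∫⁻ x, ‖f x‖ₑ ^ 2 ≠ ∞) :
    Tendsto (fun N : ℕ => ∫⁻ x, ‖f x - ∑ k ∈ fr N, comp k f x‖ₑ) atTop (𝓝 0) := by
  have hpi := Real.two_pi_pos
  have hm : ∀ N : ℕ, Measurable fun x : E 2 => ‖f x - ∑ k ∈ fr N, comp k f x‖ₑ := fun N =>
    (hf.sub (Finset.measurable_sum _ fun k _ => comp_meas k hf)).enorm
  have e1 : ∀ N : ℕ, ∫⁻ x, ‖f x - ∑ k ∈ fr N, comp k f x‖ₑ =
      ∫⁻ x, ENNReal.ofReal ((2 * Real.pi)⁻¹) * (∫⁻ φ in Ioc (0 : ℝ) (2 * Real.pi),
        ‖f (rot φ x) - ∑ k ∈ fr N, comp k f (rot φ x)‖ₑ) := fun N =>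
    avg_rot _ (hm N)
  have e2 : ∀ (N : ℕ) (x : E 2), ∫⁻ φ in Ioc (0 : ℝ) (2 * Real.pi),
        ‖f (rot φ x) - ∑ k ∈ fr N, comp k f (rot φ x)‖ₑ =
      ∫⁻ φ in Ioc (0 : ℝ) (2 * Real.pi), ‖(fun φ => f (rot φ x)) φ -
        ∑ k ∈ fr N, Pool.Agent.H243.RA.cf (fun φ => f (rot φ x)) k *
          Complex.exp (((k * φ : ℝ) : ℂ) * Complex.I)‖ₑ := by
    intro N x
    refine lintegral_congr fun φ => ?_
    beta_reduce
    congr 2
    apply Finset.sum_congr rfl
    intro k _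
    rw [comp_rot, mul_comm]
    rfl
  -- the mean square over circles
  set Q : E 2 → ℝ≥0∞ := fun x => msq (fun φ => f (rot φ x)) with hQ
  have hrm : Measurable fun p : E 2 × ℝ => f (rot p.2 p.1) :=
    hf.comp (rot_joint.comp (measurable_snd.prodMk measurable_fst))
  have hQm : Measurable Q := by
    rw [hQ]
    unfold msq
    apply Measurable.const_mul
    exact (hrm.enorm.pow_const 2).lintegral_prod_right'
  have hQi : ∫⁻ x, Q x = ∫⁻ x, ‖f x‖ₑ ^ 2 :=
    (avg_rot (fun x => ‖f x‖ₑ ^ 2) (hf.enorm.pow_const 2)).symm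
  have hQf : ∀ᵐ x, Q x < ∞ := ae_lt_top hQm (by rwa [hQi])
  have hc := fun (x : E 2) (hx : Q x < ∞) => circ2 (fun φ => f (rot φ x))
    (rotg_meas hf x) hx.ne
  have hQ0 : ∀ x, R < ‖x‖ → Q x = 0 := by
    intro x hx
    rw [hQ]
    unfold msq
    have : ∀ φ, f (rot φ x) = 0 := fun φ => h0 _ (by rw [rot_norm]; exact hx)
    simp [this]
  simp only [e1]
  have hz : ∫⁻ _x : E 2, (0 : ℝ≥0∞) = 0 := lintegral_zero
  rw [← hz]
  have hbd : ∀ (N : ℕ) (x : E 2), Q x < ∞ → ENNReal.ofReal ((2 * Real.pi)⁻¹) *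
      (∫⁻ φ in Ioc (0 : ℝ) (2 * Real.pi), ‖f (rot φ x) - ∑ k ∈ fr N, comp k f (rot φ x)‖ₑ) ≤
      Q x ^ (1 / 2 : ℝ) := by
    intro N x hx
    rw [e2]
    have h3 := (hc x hx).2.1 (fr N)
    calc _ ≤ ENNReal.ofReal ((2 * Real.pi)⁻¹) * (ENNReal.ofReal (2 * Real.pi) *
          Q x ^ (1 / 2 : ℝ)) := mul_le_mul' le_rfl (sq_half h3)
      _ = _ := by
          rw [← mul_assoc, ← ENNReal.ofReal_mul (by positivity), inv_mul_cancel₀ hpi.ne',
            ENNReal.ofReal_one, one_mul]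
  apply tendsto_lintegral_of_dominated_convergence (fun x => Q x ^ (1 / 2 : ℝ))
  · intro N
    apply Measurable.const_mul
    have hm2 : Measurable (Function.uncurry fun (x : E 2) (φ : ℝ) =>
        ‖f (rot φ x) - ∑ k ∈ fr N, comp k f (rot φ x)‖ₑ) :=
      (hm N).comp (rot_joint.comp (measurable_snd.prodMk measurable_fst))
    exact hm2.lintegral_prod_right'
  · intro N
    filter_upwards [hQf] with x hx
    exact hbd N x hx
  · -- the majorant is integrable
    have h5 : ∀ x, Q x ^ (1 / 2 : ℝ) ≤ (closedBall (0 : E 2) R).indicator (fun _ => 1) x + Q x := by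
      intro x
      by_cases hx : x ∈ closedBall (0 : E 2) R
      · rw [indicator_of_mem hx]
        rcases le_total (Q x) 1 with h6 | h6
        · exact (ENNReal.rpow_le_one h6 (by norm_num)).trans le_self_add
        · calc Q x ^ (1 / 2 : ℝ) ≤ Q x ^ (1 : ℝ) :=
                ENNReal.rpow_le_rpow_of_exponent_le h6 (by norm_num)
            _ = Q x := ENNReal.rpow_one _
            _ ≤ _ := le_add_self
      · rw [indicator_of_notMem hx, hQ0 x (by
          rw [mem_closedBall_zero_iff, not_le] at hx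
          exact hx)]
        simp
    refine ne_top_of_le_ne_top ?_ (lintegral_mono h5)
    rw [lintegral_add_right _ hQm, hQi]
    refine ENNReal.add_ne_top.2 ⟨?_, h2⟩
    rw [lintegral_indicator isClosed_closedBall.measurableSet, setLIntegral_one]
    exact measure_closedBall_lt_top.ne
  · filter_upwards [hQf] with x hx
    have h6 := ((hc x hx).1).comp fr_tendsto
    have h7 := ENNReal.Tendsto.const_mul (a := ENNReal.ofReal ((2 * Real.pi)⁻¹)) h6
      (Or.inr ENNReal.ofReal_ne_top)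
    rw [mul_zero] at h7
    refine h7.congr fun N => ?_
    rw [e2]
    rfl

end Pool.Agent.H243.RS
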