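import Mathlib
import Pool.Agent.H243.RS.G6
set_option autoImplicit false

/-! The `L⁴` bound for finite sets of frequencies with few representations as sums. -/

open MeasureTheory Set Metric Filter Topology
open scoped ENNReal NNReal RealInnerProductSpace

namespace Pool.Agent.H243.RS

open Pool.Agent.H789R2.FR (E)
open Pool.Agent.H243.RP
open Pool.Agent.Y251.HR (shell shell_meas)

/-- the pairs of elements of `F` with sum `m` -/
def fib (F : Finset ℤ) (m : ℤ) : Finset (ℤ × ℤ) := (F ×ˢ F).filter fun p => p.1 + p.2 = m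

theorem sq_fib (F : Finset ℤ) (c : ℤ → ℂ) (φ : ℝ) :
    (∑ k ∈ F, Complex.exp (((k * φ : ℝ) : ℂ) * Complex.I) * c k) ^ 2 =
      ∑ m ∈ (F ×ˢ F).image (fun p => p.1 + p.2),
        Complex.exp (((m * φ : ℝ) : ℂ) * Complex.I) * ∑ p ∈ fib F m, c p.1 * c p.2 := by
  rw [sq, Finset.sum_mul_sum, ← Finset.sum_product']
  rw [← Finset.sum_fiberwise_of_maps_to (s := F ×ˢ F) (t := (F ×ˢ F).image (fun p => p.1 + p.2))
    (g := fun p => p.1 + p.2) (fun p hp => Finset.mem_image_of_mem _ hp)]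
  refine Finset.sum_congr rfl fun m _ => ?_
  rw [Finset.mul_sum]
  refine Finset.sum_congr rfl fun p hp => ?_
  have h1 : p.1 + p.2 = m := (Finset.mem_filter.1 hp).2
  rw [← h1]
  have h2 : Complex.exp ((((p.1 + p.2 : ℤ) * φ : ℝ) : ℂ) * Complex.I) =
      Complex.exp (((p.1 * φ : ℝ) : ℂ) * Complex.I) * Complex.exp (((p.2 * φ : ℝ) : ℂ) * Complex.I) := by
    rw [← Complex.exp_add]
    congr 1
    push_cast
    ring
  rw [h2]
  ring

theorem pow4_sq (x : ℝ≥0∞) : x ^ 4 = (x ^ 2) ^ 2 := by rw [← pow_mul]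

theorem sum_sq_le {ι : Type*} (s : Finset ι) (a : ι → ℝ≥0∞) :
    (∑ i ∈ s, a i) ^ 2 ≤ s.card * ∑ i ∈ s, a i ^ 2 := by
  have h := ENNReal.rpow_sum_le_const_mul_sum_rpow s a (p := 2) (by norm_num)
  have e : (2 : ℝ) - 1 = 1 := by norm_num
  simpa [e] using h

theorem four_coeff (F : Finset ℤ) (M : ℝ≥0∞) (hM : ∀ m, ((fib F m).card : ℝ≥0∞) ≤ M) (c : ℤ → ℂ) :
    ENNReal.ofReal ((2 * Real.pi)⁻¹) * ∫⁻ φ in Ioc (0 : ℝ) (2 * Real.pi),
      ‖∑ k ∈ F, Complex.exp (((k * φ : ℝ) : ℂ) * Complex.I) * c k‖ₑ ^ 4 ≤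
      M * (∑ k ∈ F, ‖c k‖ₑ ^ 2) ^ 2 := by
  have e1 : ENNReal.ofReal ((2 * Real.pi)⁻¹) * ∫⁻ φ in Ioc (0 : ℝ) (2 * Real.pi),
      ‖∑ k ∈ F, Complex.exp (((k * φ : ℝ) : ℂ) * Complex.I) * c k‖ₑ ^ 4 =
      msq (fun φ => ∑ m ∈ (F ×ˢ F).image (fun p => p.1 + p.2),
        Complex.exp (((m * φ : ℝ) : ℂ) * Complex.I) * ∑ p ∈ fib F m, c p.1 * c p.2) := by
    unfold msq
    congr 1
    refine lintegral_congr fun φ => ?_
    beta_reduce
    rw [← sq_fib, enorm_pow, ← pow_mul]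
  rw [e1, parseval _ (fun m => ∑ p ∈ fib F m, c p.1 * c p.2)]
  calc ∑ m ∈ (F ×ˢ F).image (fun p => p.1 + p.2), ‖∑ p ∈ fib F m, c p.1 * c p.2‖ₑ ^ 2
      ≤ ∑ m ∈ (F ×ˢ F).image (fun p => p.1 + p.2), M * ∑ p ∈ fib F m, ‖c p.1‖ₑ ^ 2 * ‖c p.2‖ₑ ^ 2 := by
        refine Finset.sum_le_sum fun m _ => ?_
        calc ‖∑ p ∈ fib F m, c p.1 * c p.2‖ₑ ^ 2 ≤ (∑ p ∈ fib F m, ‖c p.1 * c p.2‖ₑ) ^ 2 :=
              pow_le_pow_left' (enorm_sum_le _ _) 2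
          _ ≤ (fib F m).card * ∑ p ∈ fib F m, ‖c p.1 * c p.2‖ₑ ^ 2 := sum_sq_le _ _
          _ ≤ M * ∑ p ∈ fib F m, ‖c p.1 * c p.2‖ₑ ^ 2 := mul_le_mul' (hM m) le_rfl
          _ = _ := by
              congr 1
              refine Finset.sum_congr rfl fun p _ => ?_
              rw [enorm_mul, mul_pow]
    _ = M * ∑ p ∈ F ×ˢ F, ‖c p.1‖ₑ ^ 2 * ‖c p.2‖ₑ ^ 2 := by
        rw [← Finset.mul_sum]
        congr 1
        exact Finset.sum_fiberwise_of_maps_to (s := F ×ˢ F)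
          (t := (F ×ˢ F).image (fun p => p.1 + p.2)) (g := fun p => p.1 + p.2)
          (fun p hp => Finset.mem_image_of_mem _ hp) (fun p => ‖c p.1‖ₑ ^ 2 * ‖c p.2‖ₑ ^ 2)
    _ = _ := by
        rw [sq (∑ k ∈ F, ‖c k‖ₑ ^ 2), Finset.sum_mul_sum, ← Finset.sum_product']

theorem four_sum (s : Finset ℤ) (M : ℝ≥0∞) (hM : ∀ m, ((fib s m).card : ℝ≥0∞) ≤ M)
    (S : Set (E 2)) (hSm : MeasurableSet S)
    (hS : ∀ φ x, rot φ x ∈ S ↔ x ∈ S) (G : ℤ → E 2 → ℂ) (hG : ∀ k, Measurable (G k))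
    (hr : ∀ k φ x, G k (rot φ x) = Complex.exp (((k * φ : ℝ) : ℂ) * Complex.I) * G k x) :
    ∫⁻ x in S, ‖∑ k ∈ s, G k x‖ₑ ^ 4 ≤ M * s.card * ∑ k ∈ s, ∫⁻ x in S, ‖G k x‖ₑ ^ 4 := by
  have hm : Measurable fun x => ‖∑ k ∈ s, G k x‖ₑ ^ 4 :=
    (Finset.measurable_sum s fun k _ => hG k).enorm.pow_const 4
  have hm2 : Measurable fun x => ∑ k ∈ s, ‖G k x‖ₑ ^ 4 :=
    Finset.measurable_sum s fun k _ => (hG k).enorm.pow_const 4
  rw [← lintegral_indicator hSm, avg_rot _ (hm.indicator hSm),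
    ← lintegral_finsetSum s (fun k _ => ((hG k).enorm.pow_const 4)),
    ← lintegral_const_mul _ hm2, ← lintegral_indicator hSm]
  refine lintegral_mono fun x => ?_
  by_cases hx : x ∈ S
  · rw [indicator_of_mem hx]
    have h1 : ∀ φ, S.indicator (fun x => ‖∑ k ∈ s, G k x‖ₑ ^ 4) (rot φ x) =
        ‖∑ k ∈ s, Complex.exp (((k * φ : ℝ) : ℂ) * Complex.I) * G k x‖ₑ ^ 4 := by
      intro φ
      rw [indicator_of_mem ((hS φ x).2 hx)]
      congr 2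
      exact Finset.sum_congr rfl fun k _ => hr k φ x
    simp only [h1]
    refine (four_coeff s M hM (fun k => G k x)).trans ?_
    rw [mul_assoc]
    refine mul_le_mul' le_rfl ((sum_sq_le _ _).trans (le_of_eq ?_))
    congr 1
    refine Finset.sum_congr rfl fun k _ => ?_
    rw [← pow4_sq]
  · rw [indicator_of_notMem hx]
    have : ∀ φ, S.indicator (fun x => ‖∑ k ∈ s, G k x‖ₑ ^ 4) (rot φ x) = 0 := fun φ =>
      indicator_of_notMem (fun h => hx ((hS φ x).1 h)) _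
    simp [this]

theorem pow4_le_sq {ι : Type*} (s : Finset ι) (a : ι → ℝ≥0∞) :
    ∑ i ∈ s, a i ^ 4 ≤ (∑ i ∈ s, a i ^ 2) ^ 2 := by
  rw [sq (∑ i ∈ s, a i ^ 2), Finset.sum_mul]
  refine Finset.sum_le_sum fun i hi => ?_
  have h1 : a i ^ 4 = a i ^ 2 * a i ^ 2 := by rw [← pow_add]
  rw [h1]
  exact mul_le_mul' le_rfl (Finset.single_le_sum (f := fun i => a i ^ 2) (fun _ _ => zero_le) hi)

theorem bessel4 (s : Finset ℤ) {g : E 2 → ℂ} (hg : Measurable g) :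
    ∑ k ∈ s, ∫⁻ x, ‖comp k g x‖ₑ ^ 4 ≤ ∫⁻ x, ‖g x‖ₑ ^ 4 := by
  rw [avg_rot (fun x => ‖g x‖ₑ ^ 4) (hg.enorm.pow_const 4),
    ← lintegral_finsetSum s (fun k _ => ((comp_meas k hg).enorm.pow_const 4))]
  refine lintegral_mono fun x => ?_
  have hj := jensen (q := 2) (by norm_num) (fun φ => ‖g (rot φ x)‖ₑ ^ 2)
    ((rotg_meas hg x).enorm.pow_const 2)
  simp only [ENNReal.rpow_two] at hj
  have e : ∀ φ, (‖g (rot φ x)‖ₑ ^ 2) ^ 2 = ‖g (rot φ x)‖ₑ ^ 4 := fun φ => (pow4_sq _).symm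
  simp only [e] at hj
  refine le_trans ?_ hj
  refine (pow4_le_sq s _).trans (pow_le_pow_left' ?_ 2)
  rcases eq_or_ne (msq fun φ => g (rot φ x)) ∞ with h | h
  · unfold msq at h
    rw [h]
    exact le_top
  · exact (circ2 _ (rotg_meas hg x) h).2.2 s

theorem op_L4' (ε : ℝ) (hε : 0 < ε) (hε1 : ε < 1) : ∃ K : ℝ, 0 < K ∧
    ∀ (F : Finset ℤ) (M : ℝ), (∀ m, ((fib F m).card : ℝ) ≤ M) → ∀ (g : E 2 → ℂ), Measurable g →
    (∃ B, ∀ ξ, ‖g ξ‖ ≤ B) → ∀ Λ : ℝ, 1 ≤ Λ →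
    ∫⁻ p, op F g p ^ 4 ∂((volume.restrict (shell 2 Λ)).prod (volume : Measure ℝ)) ≤
      ENNReal.ofReal (M * F.card * (K * Λ ^ (-1 + ε))) * ∫⁻ ξ, ‖g ξ‖ₑ ^ 4 := by
  obtain ⟨K, hK, h⟩ := X_L4_shell (d := 2) le_rfl ε hε hε1
  have e1 : (1 : ℝ) - ((2 : ℕ) : ℝ) + ε = -1 + ε := by push_cast; ring
  rw [e1] at h
  refine ⟨K, hK, ?_⟩
  rintro F M hM g hg ⟨B, hB⟩ Λ hΛ
  have hM0 : 0 ≤ M := (Nat.cast_nonneg _).trans (hM 0)
  have hi := ind_int hg hB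
  have hm : Measurable (A1.indicator g) := hg.indicator A1_meas
  have hcm : ∀ k, Measurable (comp k (A1.indicator g)) := fun k => comp_meas k hm
  have hib : ∀ ξ, ‖A1.indicator g ξ‖ ≤ B := fun ξ => (norm_indicator_le_norm_self g ξ).trans (hB ξ)
  have hop : ∀ p, op F g p = ‖∑ k ∈ F, X (comp k (A1.indicator g)) p.1 p.2‖ₑ := op_eq F hg hi
  simp only [hop]
  have hXm : ∀ k, Measurable fun p : E 2 × ℝ => X (comp k (A1.indicator g)) p.1 p.2 :=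
    fun k => X_meas (hcm k)
  have hsm : Measurable fun p : E 2 × ℝ => ‖∑ k ∈ F, X (comp k (A1.indicator g)) p.1 p.2‖ₑ ^ 4 :=
    (Finset.measurable_sum F fun k _ => hXm k).enorm.pow_const 4
  rw [lintegral_prod_symm _ hsm.aemeasurable]
  have hMe : ∀ m, ((fib F m).card : ℝ≥0∞) ≤ ENNReal.ofReal M := by
    intro m
    rw [← ENNReal.ofReal_natCast]
    exact ENNReal.ofReal_le_ofReal (hM m)
  have hcard : ((F.card : ℝ≥0∞)) = ENNReal.ofReal (F.card : ℝ) := by simp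
  have hMt : ENNReal.ofReal M * F.card ≠ ∞ :=
    ENNReal.mul_ne_top ENNReal.ofReal_ne_top (ENNReal.natCast_ne_top _)
  calc ∫⁻ z : ℝ, ∫⁻ x in shell 2 Λ, ‖∑ k ∈ F, X (comp k (A1.indicator g)) x z‖ₑ ^ 4
      ≤ ∫⁻ z : ℝ, ENNReal.ofReal M * F.card *
          ∑ k ∈ F, ∫⁻ x in shell 2 Λ, ‖X (comp k (A1.indicator g)) x z‖ₑ ^ 4 := by
        refine lintegral_mono fun z => ?_
        have a1 : ∀ k, Measurable fun x : E 2 => X (comp k (A1.indicator g)) x z := by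
          intro k
          have a2 := (hXm k).comp (measurable_prodMk_right (y := z))
          exact a2
        have a3 := four_sum F (ENNReal.ofReal M) hMe (shell 2 Λ) (shell_meas Λ) (shell_rot Λ)
          (fun k x => X (comp k (A1.indicator g)) x z) a1
          (fun k φ x => X_comp_rot k hm hi φ x z)
        exact a3
    _ = ENNReal.ofReal M * F.card *
          ∑ k ∈ F, ∫⁻ x in shell 2 Λ, ∫⁻ z : ℝ, ‖X (comp k (A1.indicator g)) x z‖ₑ ^ 4 := by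
        have hm2 : ∀ k, Measurable (Function.uncurry fun (z : ℝ) (x : E 2) =>
            ‖X (comp k (A1.indicator g)) x z‖ₑ ^ 4) := by
          intro k
          have a2 := ((hXm k).comp measurable_swap).enorm.pow_const 4
          exact a2
        have hm3 : ∀ k, Measurable fun z : ℝ =>
            ∫⁻ x in shell 2 Λ, ‖X (comp k (A1.indicator g)) x z‖ₑ ^ 4 := fun k =>
          (hm2 k).lintegral_prod_right'
        rw [lintegral_const_mul' _ _ hMt, lintegral_finsetSum F fun k _ => hm3 k]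
        congr 1
        refine Finset.sum_congr rfl fun k _ => ?_
        exact lintegral_lintegral_swap (hm2 k).aemeasurable
    _ ≤ ENNReal.ofReal M * F.card *
          ∑ k ∈ F, ENNReal.ofReal (K * Λ ^ (-1 + ε)) * ∫⁻ ξ, ‖comp k (A1.indicator g) ξ‖ₑ ^ 4 := by
        refine mul_le_mul' le_rfl (Finset.sum_le_sum fun k _ => ?_)
        exact h k.natAbs _ (hcm k) (comp_int k hg hB) ⟨B, comp_bdd k hib⟩ (comp_Ang k _)
          (comp_supp k g) Λ hΛ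
    _ = ENNReal.ofReal M * F.card * (ENNReal.ofReal (K * Λ ^ (-1 + ε)) *
          ∑ k ∈ F, ∫⁻ ξ, ‖comp k (A1.indicator g) ξ‖ₑ ^ 4) := by
        congr 1
        rw [Finset.mul_sum]
    _ ≤ ENNReal.ofReal M * F.card * (ENNReal.ofReal (K * Λ ^ (-1 + ε)) * ∫⁻ ξ, ‖g ξ‖ₑ ^ 4) :=
        mul_le_mul' le_rfl (mul_le_mul' le_rfl ((bessel4 F hm).trans (ind_pow_le g 4)))
    _ = _ := by
        rw [hcard, ← mul_assoc, ← ENNReal.ofReal_mul hM0, ← ENNReal.ofReal_mul (by positivity)]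

/-- the `L^q` bound for finitely many frequencies -/
theorem op_Lq' (q ε : ℝ) (hq2 : 2 < q) (hq4 : q < 4) (hε : 0 < ε) (hε1 : ε < 1) :
    ∃ K : ℝ, 0 < K ∧ ∀ (F : Finset ℤ) (M : ℝ), (∀ m, ((fib F m).card : ℝ) ≤ M) →
    ∀ (n : ℝ), 1 ≤ n → M * F.card ≤ n ^ 2 → ∀ Λ : ℝ, 1 ≤ Λ →
    ∀ g : E 2 → ℂ, Measurable g →
    ∫⁻ p, op F g p ^ q ∂((volume.restrict (shell 2 Λ)).prod (volume : Measure ℝ)) ≤
      ENNReal.ofReal (K * n ^ (q - 2) * Λ ^ (3 - q + ε * (q - 2) / 2)) *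
        ∫⁻ ξ, ‖g ξ‖ₑ ^ q := by
  obtain ⟨Ci, hCi0, hCi⟩ := interp_op q hq2 hq4
  obtain ⟨K2, hK2, h2⟩ := op_L2
  obtain ⟨K4, hK4, h4⟩ := op_L4' ε hε hε1
  refine ⟨Ci * (K4 + K2), by positivity, ?_⟩
  intro F M hM n hn hF Λ hΛ g hg
  have hΛ0 : 0 < Λ := by linarith
  have hn0 : 0 < n := by linarith
  set lam : ℝ := n * Λ ^ (-(1 - ε / 2)) with hlam
  have hlam0 : 0 < lam := by positivity
  have hmain := hCi (E 2) (E 2 × ℝ) volume ((volume.restrict (shell 2 Λ)).prod (volume : Measure ℝ))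
    (op F) (K2 * Λ) (n ^ 2 * (K4 * Λ ^ (-1 + ε))) lam (by positivity) (by positivity) hlam0
    (fun g hg => op_meas F hg) (fun g hg p => op_sub F hg p)
    (fun g hg hb => h2 F g hg hb Λ hΛ)
    (fun g hg hb => (h4 F M hM g hg hb Λ hΛ).trans (by
      gcongr)) g hg
  refine hmain.trans ?_
  refine mul_le_mul' (ENNReal.ofReal_le_ofReal ?_) le_rfl
  apply le_of_eq
  have e0 : ∀ a : ℝ, lam ^ a = n ^ a * Λ ^ (-(1 - ε / 2) * a) := by
    intro a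
    rw [hlam, Real.mul_rpow (by positivity) (by positivity), ← Real.rpow_mul hΛ0.le]
  have e1 : lam ^ (q - 4) * (n ^ 2 * (K4 * Λ ^ (-1 + ε))) =
      K4 * n ^ (q - 2) * Λ ^ (3 - q + ε * (q - 2) / 2) := by
    rw [e0]
    have h5 : n ^ (q - 4) * n ^ 2 = n ^ (q - 2) := by
      rw [← Real.rpow_natCast n 2, ← Real.rpow_add hn0]
      congr 1
      push_cast
      ring
    have h6 : Λ ^ (-(1 - ε / 2) * (q - 4)) * Λ ^ (-1 + ε) = Λ ^ (3 - q + ε * (q - 2) / 2) := by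
      rw [← Real.rpow_add hΛ0]
      congr 1
      ring
    rw [← h5, ← h6]
    ring
  have e2 : lam ^ (q - 2) * (K2 * Λ) = K2 * n ^ (q - 2) * Λ ^ (3 - q + ε * (q - 2) / 2) := by
    rw [e0]
    have h6 : Λ ^ (-(1 - ε / 2) * (q - 2)) * Λ = Λ ^ (3 - q + ε * (q - 2) / 2) := by
      nth_rewrite 2 [← Real.rpow_one Λ]
      rw [← Real.rpow_add hΛ0]
      congr 1
      ring
    rw [← h6]
    ring
  rw [e1, e2]
  ring

end Pool.Agent.H243.RS
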