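import Mathlib
import Pool.Agent.H243.RS.G7
import Pool.Agent.H243.RS.G8
set_option autoImplicit false

/-! Functions with sparse angular spectrum: the expansion and the bound on shells. -/

open MeasureTheory Set Metric Filter Topology
open scoped ENNReal NNReal RealInnerProductSpace

namespace Pool.Agent.H243.RS

open Pool.Agent.H789R2.FR (E)
open Pool.Agent.H243.RA (fr fr_tendsto fr_sum)
open Pool.Agent.H243.RP
open Pool.Agent.Y251.HR (shell shell_meas)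

theorem comp_integrable (k : ℤ) {f : E 2 → ℂ} (hf : Measurable f) (hi : Integrable f) :
    Integrable (comp k f) := by
  refine ⟨(comp_meas k hf).aestronglyMeasurable, ?_⟩
  have h := comp_Lq (q := 1) le_rfl k hf
  simp only [ENNReal.rpow_one] at h
  exact lt_of_le_of_lt h hi.2

theorem X_sum (F : Finset ℤ) {f : E 2 → ℂ} (hf : Measurable f) (hi : Integrable f) (x : E 2) (z : ℝ) :
    X (fun ξ => ∑ k ∈ F, comp k f ξ) x z = ∑ k ∈ F, X (comp k f) x z := by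
  unfold X
  rw [← integral_finsetSum F fun k _ => X_integrable (comp_integrable k hf hi) x z]
  refine integral_congr_ae (Eventually.of_forall fun ξ => ?_)
  beta_reduce
  rw [Finset.mul_sum]

theorem X_sub_le {f g : E 2 → ℂ} (hf : Integrable f) (hg : Integrable g) (x : E 2) (z : ℝ) :
    ‖X f x z - X g x z‖ₑ ≤ ∫⁻ ξ, ‖f ξ - g ξ‖ₑ := by
  have h1 : X f x z - X g x z = X (fun ξ => f ξ - g ξ) x z := by
    unfold X
    rw [← integral_sub (X_integrable hf x z) (X_integrable hg x z)]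
    refine integral_congr_ae (Eventually.of_forall fun ξ => ?_)
    beta_reduce
    rw [mul_sub]
  rw [h1]
  exact X_le_int _ x z

theorem X_split {f : E 2 → ℂ} (hf : Measurable f) (hi : Integrable f) {R : ℝ}
    (h0 : ∀ ξ, R < ‖ξ‖ → f ξ = 0) (h2 : ∫⁻ x, ‖f x‖ₑ ^ 2 ≠ ∞) (N : ℕ) (x : E 2) (z : ℝ) :
    ‖X f x z‖ₑ ≤ ‖∑ k ∈ fr N, X (comp k f) x z‖ₑ +
      ∑' j : ℕ, (‖X (comp ((N + j : ℕ) : ℤ) f) x z‖ₑ + ‖X (comp (-((N + j : ℕ) : ℤ)) f) x z‖ₑ) := by
  set c : ℤ → ℂ := fun k => X (comp k f) x z with hc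
  set T : ℝ≥0∞ := ∑' j : ℕ, (‖c ((N + j : ℕ) : ℤ)‖ₑ + ‖c (-((N + j : ℕ) : ℤ))‖ₑ) with hT
  have h1 := four_lim hf h0 h2
  have hb : ∀ M : ℕ, ‖X f x z‖ₑ ≤ (‖∑ k ∈ fr N, c k‖ₑ + T) +
      ∫⁻ x, ‖f x - ∑ k ∈ fr (N + M), comp k f x‖ₑ := by
    intro M
    have e1 : X f x z = ∑ k ∈ fr (N + M), c k + (X f x z - ∑ k ∈ fr (N + M), c k) := by ring
    rw [e1]
    refine (enorm_add_le _ _).trans (add_le_add ?_ ?_)
    · rw [fr_sum c (N + M), Finset.sum_range_add, ← fr_sum c N]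
      refine (enorm_add_le _ _).trans (add_le_add le_rfl ?_)
      refine (enorm_sum_le _ _).trans ?_
      refine (Finset.sum_le_sum fun i _ => ?_).trans (ENNReal.sum_le_tsum (Finset.range M))
      split_ifs with h3
      · rw [h3]
        simp
      · exact enorm_add_le _ _
    · rw [hc, ← X_sum _ hf hi]
      exact X_sub_le hi (integrable_finsetSum _ fun k _ => comp_integrable k hf hi) x z
  have h3 : Tendsto (fun M : ℕ => (‖∑ k ∈ fr N, c k‖ₑ + T) +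
      ∫⁻ x, ‖f x - ∑ k ∈ fr (N + M), comp k f x‖ₑ) atTop (𝓝 ((‖∑ k ∈ fr N, c k‖ₑ + T) + 0)) := by
    apply Tendsto.add tendsto_const_nhds
    have h4 : Tendsto (fun M : ℕ => N + M) atTop atTop :=
      (tendsto_add_atTop_nat N).congr fun a => add_comm _ _
    exact h1.comp h4
  rw [add_zero] at h3
  exact ge_of_tendsto' h3 hb

/-- the angular spectrum of `f` is contained in `L` -/
def Spec (L : Set ℤ) (f : E 2 → ℂ) : Prop := ∀ k, k ∉ L → comp k f =ᵐ[volume] 0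

theorem X_spec {L : Set ℤ} {f : E 2 → ℂ} (h : Spec L f) (k : ℤ) (hk : k ∉ L) (x : E 2) (z : ℝ) :
    X (comp k f) x z = 0 := by
  unfold X
  apply integral_eq_zero_of_ae
  filter_upwards [h k hk] with ξ hξ
  rw [hξ]
  simp

open Classical in
/-- the elements of `L` of absolute value less than `N` -/
noncomputable def FL (L : Set ℤ) (N : ℕ) : Finset ℤ := (fr N).filter (· ∈ L)

theorem sum_FL {L : Set ℤ} {f : E 2 → ℂ} (h : Spec L f) (N : ℕ) (x : E 2) (z : ℝ) :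
    ∑ k ∈ fr N, X (comp k f) x z = ∑ k ∈ FL L N, X (comp k f) x z := by
  classical
  unfold FL
  symm
  apply Finset.sum_filter_of_ne
  intro k _ hk
  by_contra hc
  exact hk (X_spec h k hc x z)

/-- the counting conditions -/
def Sparse (β γ B : ℝ) (L : Set ℤ) : Prop := ∀ N : ℕ, 1 ≤ N →
  ({k : ℤ | k ∈ L ∧ |k| ≤ N}.ncard : ℝ) ≤ B * (N : ℝ) ^ β ∧
  ∀ m : ℤ, ({k : ℤ | k ∈ L ∧ m - k ∈ L ∧ |k| ≤ N ∧ |m - k| ≤ N}.ncard : ℝ) ≤ B * (N : ℝ) ^ γ

theorem mem_FL {L : Set ℤ} {N : ℕ} {k : ℤ} (h : k ∈ FL L N) : k ∈ L ∧ |k| ≤ N := by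
  classical
  unfold FL fr at h
  rw [Finset.mem_filter, Finset.mem_Ioo] at h
  exact ⟨h.2, abs_le.2 ⟨h.1.1.le, h.1.2.le⟩⟩

theorem finN (N : ℕ) : {k : ℤ | |k| ≤ N}.Finite :=
  (Set.finite_Icc (-(N : ℤ)) N).subset fun _ hk => abs_le.1 hk

theorem FL_card {β γ B : ℝ} {L : Set ℤ} (h : Sparse β γ B L) {N : ℕ} (hN : 1 ≤ N) :
    ((FL L N).card : ℝ) ≤ B * (N : ℝ) ^ β := by
  refine le_trans ?_ (h N hN).1
  rw [← Set.ncard_coe_finset]
  exact_mod_cast Set.ncard_le_ncard (fun k hk => mem_FL (Finset.mem_coe.1 hk))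
    ((finN N).subset fun k hk => hk.2)

theorem FL_fib {β γ B : ℝ} {L : Set ℤ} (h : Sparse β γ B L) {N : ℕ} (hN : 1 ≤ N) (m : ℤ) :
    ((fib (FL L N) m).card : ℝ) ≤ B * (N : ℝ) ^ γ := by
  refine le_trans ?_ ((h N hN).2 m)
  have h1 : ((fib (FL L N) m).image Prod.fst).card = (fib (FL L N) m).card := by
    apply Finset.card_image_of_injOn
    intro p hp p' hp' he
    have a1 : p.1 + p.2 = m := (Finset.mem_filter.1 (Finset.mem_coe.1 hp)).2
    have a2 : p'.1 + p'.2 = m := (Finset.mem_filter.1 (Finset.mem_coe.1 hp')).2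
    have a3 : p.1 = p'.1 := he
    refine Prod.ext a3 ?_
    linarith
  rw [← h1, ← Set.ncard_coe_finset]
  have hsub : (((fib (FL L N) m).image Prod.fst : Finset ℤ) : Set ℤ) ⊆
      {k : ℤ | k ∈ L ∧ m - k ∈ L ∧ |k| ≤ N ∧ |m - k| ≤ N} := by
    intro k hk
    obtain ⟨p, hp, rfl⟩ := Finset.mem_image.1 (Finset.mem_coe.1 hk)
    obtain ⟨hp1, hp2⟩ := Finset.mem_filter.1 hp
    rw [Finset.mem_product] at hp1
    have a1 := mem_FL hp1.1
    have a2 := mem_FL hp1.2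
    have a3 : m - p.1 = p.2 := by linarith
    show p.1 ∈ L ∧ m - p.1 ∈ L ∧ |p.1| ≤ N ∧ |m - p.1| ≤ N
    rw [a3]
    exact ⟨a1.1, a2.1, a1.2, a2.2⟩
  exact_mod_cast Set.ncard_le_ncard hsub ((finN N).subset fun k hk => hk.2.2.1)

end Pool.Agent.H243.RS
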