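import Mathlib
import Pool.Agent.H243.RS.G9
set_option autoImplicit false

/-! Functions with sparse angular spectrum: the bound on shells. -/

open MeasureTheory Set Metric Filter Topology
open scoped ENNReal NNReal RealInnerProductSpace

namespace Pool.Agent.H243.RS

open Pool.Agent.H789R2.FR (E)
open Pool.Agent.H243.RA (fr fr_tendsto fr_sum)
open Pool.Agent.H243.RP
open Pool.Agent.Y251.HR (shell shell_meas)

theorem add_rpow_le {q : ℝ} (hq : 1 ≤ q) (a b : ℝ≥0∞) :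
    (a + b) ^ q ≤ ENNReal.ofReal (2 ^ (q - 1)) * (a ^ q + b ^ q) := by
  have h := ENNReal.rpow_add_le_mul_rpow_add_rpow a b hq
  rwa [show ((2 : ℝ≥0∞)) = ENNReal.ofReal 2 by simp, ENNReal.ofReal_rpow_of_pos (by norm_num)] at h

theorem two_ofReal (x : ℝ≥0∞) : x + x = ENNReal.ofReal 2 * x := by
  rw [← two_mul]
  simp

theorem ofReal_ofReal {a : ℝ} (ha : 0 ≤ a) (b : ℝ) (x : ℝ≥0∞) :
    ENNReal.ofReal a * (ENNReal.ofReal b * x) = ENNReal.ofReal (a * b) * x := by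
  rw [← mul_assoc, ← ENNReal.ofReal_mul ha]

theorem half_pow_le {N : ℕ} (hN : 1 ≤ N) : ((1 : ℝ) / 2) ^ N ≤ 1 / N := by
  have hN0 : (0 : ℝ) < N := by exact_mod_cast hN
  rw [div_pow, one_pow]
  apply one_div_le_one_div_of_le hN0
  exact_mod_cast (Nat.lt_two_pow_self (n := N)).le

theorem shell_tail (q : ℝ) (hq3 : 3 ≤ q) : ∃ K : ℝ, 0 < K ∧
    ∀ f : E 2 → ℂ, Measurable f → Integrable f →
    (∀ ξ, ¬ (1 / 2 < ‖ξ‖ ∧ ‖ξ‖ < 1) → f ξ = 0) → ∀ j : ℕ,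
    ∫⁻ p : E 2 × ℝ, (∑' i : ℕ, (‖X (comp ((16 * 2 ^ j + i : ℕ) : ℤ) f) p.1 p.2‖ₑ +
      ‖X (comp (-((16 * 2 ^ j + i : ℕ) : ℤ)) f) p.1 p.2‖ₑ)) ^ q
      ∂((volume.restrict (shell 2 (2 ^ j))).prod (volume : Measure ℝ)) ≤
      ENNReal.ofReal (K * ((2 : ℝ) ^ j) ^ (-(1 : ℝ))) * ∫⁻ ξ, ‖f ξ‖ₑ ^ q := by
  have hq0 : 0 < q := by linarith
  obtain ⟨K, hK, ht⟩ := tail_shell (d := 2) le_rfl q (by linarith)
  obtain ⟨S, hS, hS'⟩ := tsum_pow_le (q := q) (κ := 1) hq0 one_pos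
  obtain ⟨G, hG, hG'⟩ := geom_ofReal (K := 1) (η := q - 1) one_pos (by linarith)
  refine ⟨S * (2 ^ (q - 1) * (2 * K)) * G, by positivity, ?_⟩
  intro f hfm hfi h0 j
  set Λ : ℝ := 2 ^ j with hΛ
  have hΛ1 : 1 ≤ Λ := one_le_pow₀ (by norm_num)
  have hΛ0 : 0 < Λ := by linarith
  set N : ℕ := 16 * 2 ^ j with hN
  have hNr : (N : ℝ) = 16 * Λ := by rw [hN, hΛ]; push_cast; rfl
  have hN1 : 1 ≤ N := by rw [hN]; have := Nat.one_le_two_pow (n := j); omega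
  set μ : Measure (E 2 × ℝ) := (volume.restrict (shell 2 Λ)).prod (volume : Measure ℝ) with hμ
  have hf1 : A1.indicator f = f := by
    funext ξ
    by_cases hx : ξ ∈ A1
    · rw [indicator_of_mem hx]
    · rw [indicator_of_notMem hx, h0 ξ hx]
  have hXm : ∀ k : ℤ, Measurable fun p : E 2 × ℝ => ‖X (comp k f) p.1 p.2‖ₑ := fun k =>
    (X_meas (comp_meas k hfm)).enorm
  -- one frequency
  have hone : ∀ (k : ℤ) (i : ℕ), k.natAbs = N + i → ∫⁻ p, ‖X (comp k f) p.1 p.2‖ₑ ^ q ∂μ ≤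
      ENNReal.ofReal (K * Λ ^ 2 * ((1 / 2) ^ (N + i)) ^ q) * ∫⁻ ξ, ‖f ξ‖ₑ ^ q := by
    intro k i hk
    rw [hμ, lintegral_prod _ ((hXm k).pow_const q).aemeasurable]
    have h1 := ht k.natAbs (comp k f) (comp_meas k hfm) (comp_integrable k hfm hfi) (comp_Ang k f)
      (fun ξ hξ => by
        have := comp_supp k f ξ hξ
        rwa [hf1] at this) Λ hΛ1 (by
        rw [hk]
        push_cast
        rw [hNr]
        have : (0 : ℝ) ≤ i := Nat.cast_nonneg i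
        linarith)
    rw [hk] at h1
    exact h1.trans (mul_le_mul' le_rfl (comp_Lq (by linarith) k hfm))
  set a : ℕ → E 2 × ℝ → ℝ≥0∞ := fun i p => ‖X (comp ((N + i : ℕ) : ℤ) f) p.1 p.2‖ₑ +
    ‖X (comp (-((N + i : ℕ) : ℤ)) f) p.1 p.2‖ₑ with ha
  have ham : ∀ i, Measurable (a i) := fun i => (hXm _).add (hXm _)
  have hai : ∀ i, ∫⁻ p, a i p ^ q ∂μ ≤
      ENNReal.ofReal (2 ^ (q - 1) * (2 * (K * Λ ^ 2 * ((1 / 2) ^ (N + i)) ^ q))) *
        ∫⁻ ξ, ‖f ξ‖ₑ ^ q := by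
    intro i
    calc ∫⁻ p, a i p ^ q ∂μ ≤ ∫⁻ p, ENNReal.ofReal (2 ^ (q - 1)) *
          (‖X (comp ((N + i : ℕ) : ℤ) f) p.1 p.2‖ₑ ^ q +
            ‖X (comp (-((N + i : ℕ) : ℤ)) f) p.1 p.2‖ₑ ^ q) ∂μ :=
          lintegral_mono fun p => add_rpow_le (by linarith) _ _
      _ = ENNReal.ofReal (2 ^ (q - 1)) * (∫⁻ p, ‖X (comp ((N + i : ℕ) : ℤ) f) p.1 p.2‖ₑ ^ q ∂μ +
            ∫⁻ p, ‖X (comp (-((N + i : ℕ) : ℤ)) f) p.1 p.2‖ₑ ^ q ∂μ) := by
          rw [lintegral_const_mul' _ _ ENNReal.ofReal_ne_top,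
            lintegral_add_left ((hXm _).pow_const q)]
      _ ≤ ENNReal.ofReal (2 ^ (q - 1)) *
          (ENNReal.ofReal (K * Λ ^ 2 * ((1 / 2) ^ (N + i)) ^ q) * (∫⁻ ξ, ‖f ξ‖ₑ ^ q) +
            ENNReal.ofReal (K * Λ ^ 2 * ((1 / 2) ^ (N + i)) ^ q) * ∫⁻ ξ, ‖f ξ‖ₑ ^ q) := by
          refine mul_le_mul' le_rfl (add_le_add (hone _ i ?_) (hone _ i ?_))
          · exact Int.natAbs_natCast _
          · rw [Int.natAbs_neg]
            exact Int.natAbs_natCast _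
      _ = _ := by
          rw [two_ofReal, ofReal_ofReal (by positivity), ofReal_ofReal (by positivity), mul_assoc]
  calc ∫⁻ p, (∑' i : ℕ, a i p) ^ q ∂μ
      ≤ ∫⁻ p, ENNReal.ofReal S * ∑' i, ENNReal.ofReal (((2 : ℝ) ^ i) ^ (1 : ℝ)) * a i p ^ q ∂μ :=
        lintegral_mono fun p => hS' _
    _ = ENNReal.ofReal S * ∑' i, ENNReal.ofReal (((2 : ℝ) ^ i) ^ (1 : ℝ)) * ∫⁻ p, a i p ^ q ∂μ := by
        rw [lintegral_const_mul' _ _ ENNReal.ofReal_ne_top, lintegral_tsum]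
        · congr 2
          funext i
          rw [lintegral_const_mul' _ _ ENNReal.ofReal_ne_top]
        · intro i
          exact (((ham i).pow_const q).const_mul _).aemeasurable
    _ ≤ ENNReal.ofReal S * ∑' i, ENNReal.ofReal (1 * ((2 : ℝ) ^ i) ^ (-(q - 1))) *
          (ENNReal.ofReal (2 ^ (q - 1) * (2 * K) * Λ ^ (-(1 : ℝ))) * ∫⁻ ξ, ‖f ξ‖ₑ ^ q) := by
        refine mul_le_mul' le_rfl (ENNReal.tsum_le_tsum fun i => ?_)
        refine (mul_le_mul' le_rfl (hai i)).trans ?_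
        rw [ofReal_ofReal (by positivity), ofReal_ofReal (by positivity)]
        refine mul_le_mul' (ENNReal.ofReal_le_ofReal ?_) le_rfl
        have e1 : (((1 : ℝ) / 2) ^ (N + i)) ^ q ≤ Λ ^ (-q) * ((2 : ℝ) ^ i) ^ (-q) := by
          have h1 : ((1 : ℝ) / 2) ^ N ≤ Λ⁻¹ := by
            refine (half_pow_le hN1).trans ?_
            rw [one_div, hNr]
            exact inv_anti₀ hΛ0 (by linarith)
          rw [pow_add, Real.mul_rpow (by positivity) (by positivity)]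
          refine mul_le_mul ?_ (le_of_eq ?_) (by positivity) (by positivity)
          · rw [Real.rpow_neg hΛ0.le, ← Real.inv_rpow hΛ0.le]
            exact Real.rpow_le_rpow (by positivity) h1 hq0.le
          · rw [Real.rpow_neg (by positivity), ← Real.inv_rpow (by positivity), one_div, inv_pow]
        have e2 : ((2 : ℝ) ^ i) ^ (1 : ℝ) * ((2 : ℝ) ^ i) ^ (-q) = ((2 : ℝ) ^ i) ^ (-(q - 1)) := by
          rw [← Real.rpow_add (by positivity)]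
          congr 1
          ring
        have e3 : Λ ^ 2 * Λ ^ (-q) ≤ Λ ^ (-(1 : ℝ)) := by
          rw [← Real.rpow_natCast Λ 2, ← Real.rpow_add hΛ0]
          apply Real.rpow_le_rpow_of_exponent_le hΛ1
          push_cast
          linarith
        calc ((2 : ℝ) ^ i) ^ (1 : ℝ) * (2 ^ (q - 1) * (2 * (K * Λ ^ 2 * (((1 : ℝ) / 2) ^ (N + i)) ^ q)))
            ≤ ((2 : ℝ) ^ i) ^ (1 : ℝ) *
              (2 ^ (q - 1) * (2 * (K * Λ ^ 2 * (Λ ^ (-q) * ((2 : ℝ) ^ i) ^ (-q))))) := by gcongr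
          _ = (((2 : ℝ) ^ i) ^ (1 : ℝ) * ((2 : ℝ) ^ i) ^ (-q)) *
              (2 ^ (q - 1) * (2 * K) * (Λ ^ 2 * Λ ^ (-q))) := by ring
          _ ≤ ((2 : ℝ) ^ i) ^ (-(q - 1)) * (2 ^ (q - 1) * (2 * K) * Λ ^ (-(1 : ℝ))) := by
              rw [e2]
              gcongr
          _ = _ := by ring
    _ = _ := by
        rw [ENNReal.tsum_mul_right, hG', ← mul_assoc, ← mul_assoc, ← ENNReal.ofReal_mul hS.le,
          ← ENNReal.ofReal_mul (by positivity)]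
        congr 2
        ring

theorem shell_spec (β γ B q : ℝ) (hβ : 0 ≤ β) (hγ : 0 ≤ γ) (hs : β + γ < 1)
    (hq : (6 - 2 * (β + γ)) / (2 - (β + γ)) < q) (hq4 : q < 4) : ∃ K η : ℝ, 0 < K ∧ 0 < η ∧
    ∀ L : Set ℤ, Sparse β γ B L → ∀ f : E 2 → ℂ, Measurable f → Integrable f →
    (∫⁻ x, ‖f x‖ₑ ^ 2 ≠ ∞) → (∀ ξ, ¬ (1 / 2 < ‖ξ‖ ∧ ‖ξ‖ < 1) → f ξ = 0) → Spec L f → ∀ j : ℕ,
    ∫⁻ x in shell 2 (2 ^ j), ∫⁻ z : ℝ, ‖X f x z‖ₑ ^ q ≤
      ENNReal.ofReal (K * ((2 : ℝ) ^ j) ^ (-η)) * ∫⁻ ξ, ‖f ξ‖ₑ ^ q := by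
  set s : ℝ := β + γ with hsd
  have hs0 : 0 ≤ s := by positivity
  have h2s : 0 < 2 - s := by linarith
  rw [div_lt_iff₀ h2s] at hq
  have hq3 : 3 ≤ q := by
    by_contra hc
    push Not at hc
    nlinarith
  have hq0 : 0 < q := by linarith
  set δ : ℝ := (q * (2 - s) - (6 - 2 * s)) / 2 with hδ
  have hδ0 : 0 < δ := by rw [hδ]; linarith
  set ε : ℝ := min (1 / 2) (δ / 2) with hε
  have hε0 : 0 < ε := by positivity
  have hε1 : ε < 1 := lt_of_le_of_lt (min_le_left _ _) (by norm_num)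
  have hεδ : ε ≤ δ / 2 := min_le_right _ _
  obtain ⟨K1, hK1, h1⟩ := op_Lq' q ε (by linarith) hq4 hε0 hε1
  obtain ⟨K2, hK2, h2⟩ := shell_tail q hq3
  set B' : ℝ := max B 1 with hB'
  have hB1 : 1 ≤ B' := le_max_right _ _
  have hBB : B ≤ B' := le_max_left _ _
  set η : ℝ := min 1 (δ / 2) with hη
  have hη0 : 0 < η := by positivity
  refine ⟨2 ^ (q - 1) * (K1 * (B' * 16 ^ (s / 2)) ^ (q - 2) + K2), η, by positivity, hη0, ?_⟩
  intro L hL f hfm hfi hf2 h0 hsp j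
  set Λ : ℝ := 2 ^ j with hΛ
  have hΛ1 : 1 ≤ Λ := one_le_pow₀ (by norm_num)
  have hΛ0 : 0 < Λ := by linarith
  set N : ℕ := 16 * 2 ^ j with hN
  have hNr : (N : ℝ) = 16 * Λ := by rw [hN, hΛ]; push_cast; rfl
  have hN1 : 1 ≤ N := by rw [hN]; have := Nat.one_le_two_pow (n := j); omega
  have hN1r : (1 : ℝ) ≤ N := by exact_mod_cast hN1
  set μ : Measure (E 2 × ℝ) := (volume.restrict (shell 2 Λ)).prod (volume : Measure ℝ) with hμ
  have hf1 : A1.indicator f = f := by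
    funext ξ
    by_cases hx : ξ ∈ A1
    · rw [indicator_of_mem hx]
    · rw [indicator_of_notMem hx, h0 ξ hx]
  have hR0 : ∀ ξ, 1 < ‖ξ‖ → f ξ = 0 := fun ξ hξ => h0 ξ fun h => by linarith [h.2]
  set F : Finset ℤ := FL L N with hF
  set a : E 2 × ℝ → ℝ≥0∞ := fun p => ∑' i : ℕ, (‖X (comp ((N + i : ℕ) : ℤ) f) p.1 p.2‖ₑ +
    ‖X (comp (-((N + i : ℕ) : ℤ)) f) p.1 p.2‖ₑ) with ha
  have hpt : ∀ p : E 2 × ℝ, ‖X f p.1 p.2‖ₑ ≤ op F f p + a p := by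
    intro p
    have h3 := X_split hfm hfi hR0 hf2 N p.1 p.2
    rw [sum_FL hsp] at h3
    rw [op_eq F hfm (by rwa [hf1]), hf1]
    exact h3
  have hopm : Measurable fun p => op F f p ^ q := (op_meas F hfm).pow_const q
  -- the main term
  set n : ℝ := B' * (N : ℝ) ^ (s / 2) with hn
  have hn1 : 1 ≤ n := by
    rw [hn]
    have h3 : 1 ≤ (N : ℝ) ^ (s / 2) := Real.one_le_rpow hN1r (by positivity)
    nlinarith
  have hcard : ∀ m, ((fib F m).card : ℝ) ≤ B' * (N : ℝ) ^ γ := fun m =>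
    (FL_fib hL hN1 m).trans (mul_le_mul_of_nonneg_right hBB (by positivity))
  have hcard2 : B' * (N : ℝ) ^ γ * F.card ≤ n ^ 2 := by
    have h3 : (F.card : ℝ) ≤ B' * (N : ℝ) ^ β :=
      (FL_card hL hN1).trans (mul_le_mul_of_nonneg_right hBB (by positivity))
    calc B' * (N : ℝ) ^ γ * F.card ≤ B' * (N : ℝ) ^ γ * (B' * (N : ℝ) ^ β) := by gcongr
      _ = B' ^ 2 * ((N : ℝ) ^ γ * (N : ℝ) ^ β) := by ring
      _ = n ^ 2 := by
          rw [← Real.rpow_add (by linarith), hn, mul_pow, ← Real.rpow_natCast ((N : ℝ) ^ (s / 2)) 2,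
            ← Real.rpow_mul (by linarith)]
          congr 2
          rw [hsd]
          push_cast
          ring
  have h4 := h1 F (B' * (N : ℝ) ^ γ) hcard n hn1 hcard2 Λ hΛ1 f hfm
  have h5 := h2 f hfm hfi h0 j
  rw [show ∫⁻ x in shell 2 Λ, ∫⁻ z : ℝ, ‖X f x z‖ₑ ^ q = ∫⁻ p, ‖X f p.1 p.2‖ₑ ^ q ∂μ from
    (lintegral_prod _ ((X_meas hfm).enorm.pow_const q).aemeasurable).symm]
  calc ∫⁻ p, ‖X f p.1 p.2‖ₑ ^ q ∂μ
      ≤ ∫⁻ p, ENNReal.ofReal (2 ^ (q - 1)) * (op F f p ^ q + a p ^ q) ∂μ :=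
        lintegral_mono fun p => (ENNReal.rpow_le_rpow (hpt p) hq0.le).trans
          (add_rpow_le (by linarith) _ _)
    _ = ENNReal.ofReal (2 ^ (q - 1)) * (∫⁻ p, op F f p ^ q ∂μ + ∫⁻ p, a p ^ q ∂μ) := by
        rw [lintegral_const_mul' _ _ ENNReal.ofReal_ne_top, lintegral_add_left hopm]
    _ ≤ ENNReal.ofReal (2 ^ (q - 1)) *
          (ENNReal.ofReal (K1 * n ^ (q - 2) * Λ ^ (3 - q + ε * (q - 2) / 2)) * (∫⁻ ξ, ‖f ξ‖ₑ ^ q) +
            ENNReal.ofReal (K2 * Λ ^ (-(1 : ℝ))) * ∫⁻ ξ, ‖f ξ‖ₑ ^ q) := by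
        exact mul_le_mul' le_rfl (add_le_add h4 h5)
    _ = ENNReal.ofReal (2 ^ (q - 1) * (K1 * n ^ (q - 2) * Λ ^ (3 - q + ε * (q - 2) / 2) +
          K2 * Λ ^ (-(1 : ℝ)))) * ∫⁻ ξ, ‖f ξ‖ₑ ^ q := by
        rw [← add_mul, ← ENNReal.ofReal_add (by positivity) (by positivity), ← mul_assoc,
          ← ENNReal.ofReal_mul (by positivity)]
    _ ≤ _ := by
        refine mul_le_mul' (ENNReal.ofReal_le_ofReal ?_) le_rfl
        have e1 : n ^ (q - 2) = (B' * 16 ^ (s / 2)) ^ (q - 2) * Λ ^ (s / 2 * (q - 2)) := by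
          rw [hn, hNr, Real.mul_rpow (by norm_num) hΛ0.le, ← mul_assoc,
            Real.mul_rpow (by positivity) (by positivity), ← Real.rpow_mul hΛ0.le]
        have e2 : Λ ^ (s / 2 * (q - 2)) * Λ ^ (3 - q + ε * (q - 2) / 2) ≤ Λ ^ (-η) := by
          rw [← Real.rpow_add hΛ0]
          apply Real.rpow_le_rpow_of_exponent_le hΛ1
          have h6 : η ≤ δ / 2 := min_le_right _ _
          have h7 : ε * (q - 2) / 2 ≤ δ / 2 := by nlinarith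
          have h8 : s / 2 * (q - 2) + (3 - q) = -δ := by rw [hδ]; ring
          linarith
        have e3 : Λ ^ (-(1 : ℝ)) ≤ Λ ^ (-η) := by
          apply Real.rpow_le_rpow_of_exponent_le hΛ1
          have : η ≤ 1 := min_le_left _ _
          linarith
        calc 2 ^ (q - 1) * (K1 * n ^ (q - 2) * Λ ^ (3 - q + ε * (q - 2) / 2) + K2 * Λ ^ (-(1 : ℝ)))
            = 2 ^ (q - 1) * (K1 * (B' * 16 ^ (s / 2)) ^ (q - 2) *
              (Λ ^ (s / 2 * (q - 2)) * Λ ^ (3 - q + ε * (q - 2) / 2)) + K2 * Λ ^ (-(1 : ℝ))) := by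
              rw [e1]
              ring
          _ ≤ 2 ^ (q - 1) * (K1 * (B' * 16 ^ (s / 2)) ^ (q - 2) * Λ ^ (-η) + K2 * Λ ^ (-η)) := by
              gcongr
          _ = _ := by ring

end Pool.Agent.H243.RS
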