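import Mathlib
import Pool.Agent.H243.RS.G10
set_option autoImplicit false

/-! The region near the axis, and the bound on an annulus. -/

open MeasureTheory Set Metric Filter Topology
open scoped ENNReal NNReal RealInnerProductSpace

namespace Pool.Agent.H243.RS

open Pool.Agent.W5h55.SH hiding e0 e0_norm
open Pool.Agent.H789R2.FR (E sg sg_finite sg_ae polar)
open Pool.Agent.H243.RA (fr fr_tendsto fr_sum)
open Pool.Agent.H243.RP
open Pool.Agent.Y251.HR (shell shell_meas)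

/-- the integral over the sphere of radius `r` -/
noncomputable def HH {d : ℕ} (f : E d → ℂ) (x : E d) (r : ℝ) : ℂ :=
  ∫ w, Complex.exp (-((⟪x, r • w⟫ : ℝ) : ℂ) * Complex.I) * f (r • w) ∂(sg d)

theorem HH_meas {d : ℕ} {f : E d → ℂ} (hf : Measurable f) (x : E d) : Measurable (HH f x) := by
  have := sg_finite d
  unfold HH
  apply StronglyMeasurable.measurable
  apply StronglyMeasurable.integral_prod_right (f := fun (r : ℝ) (w : E d) =>
    Complex.exp (-((⟪x, r • w⟫ : ℝ) : ℂ) * Complex.I) * f (r • w))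
  apply Measurable.stronglyMeasurable
  apply Measurable.mul
  · apply Continuous.measurable
    fun_prop
  · exact hf.comp (measurable_fst.smul measurable_snd)

theorem X_HH {d : ℕ} (hd : 2 ≤ d) {f : E d → ℂ} (hf : Integrable f)
    (h1 : ∀ ξ, 1 ≤ ‖ξ‖ → f ξ = 0) (x : E d) (z : ℝ) :
    X f x z = ∫ t in Ioo (0 : ℝ) 1, Complex.exp (-((z * t : ℝ) : ℂ) * Complex.I) *
      (((qs t ^ (d - 2) / 2 : ℝ) : ℂ) * HH f x (qs t)) := by
  have e0 : X f x z = ∫ r in Ioi (0 : ℝ), ((r ^ (d - 1) : ℝ) : ℂ) *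
      (Complex.exp (-((r ^ 2 * z : ℝ) : ℂ) * Complex.I) * HH f x r) := by
    unfold X
    rw [Pool.Agent.H438R2.BR.T7.polar_int (by omega) _ (X_integrable hf _ _)]
    refine setIntegral_congr_fun measurableSet_Ioi fun r hr => ?_
    beta_reduce
    congr 1
    have hr0 : 0 < r := hr
    unfold HH
    rw [← integral_const_mul]
    apply integral_congr_ae
    filter_upwards [sg_ae d] with u hu
    have hru : ‖r • u‖ = r := by rw [norm_smul, hu, mul_one, Real.norm_of_nonneg hr0.le]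
    rw [hru, ← mul_assoc, ← Complex.exp_add]
    congr 2
    push_cast
    ring
  have e1 : ∫ r in Ioi (0 : ℝ), ((r ^ (d - 1) : ℝ) : ℂ) *
      (Complex.exp (-((r ^ 2 * z : ℝ) : ℂ) * Complex.I) * HH f x r) =
      ∫ r in Ioo (0 : ℝ) 1, ((r ^ (d - 1) : ℝ) : ℂ) *
      (Complex.exp (-((r ^ 2 * z : ℝ) : ℂ) * Complex.I) * HH f x r) := by
    rw [← integral_indicator measurableSet_Ioi, ← integral_indicator measurableSet_Ioo]
    congr 1
    funext r
    by_cases hr : r ∈ Ioo (0 : ℝ) 1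
    · rw [indicator_of_mem hr, indicator_of_mem (show r ∈ Ioi (0 : ℝ) from hr.1)]
    · rw [indicator_of_notMem hr]
      by_cases hr0 : r ∈ Ioi (0 : ℝ)
      · rw [indicator_of_mem hr0]
        have hr1 : 1 ≤ r := by
          by_contra hc
          exact hr ⟨hr0, not_le.1 hc⟩
        have hH : HH f x r = 0 := by
          unfold HH
          apply integral_eq_zero_of_ae
          filter_upwards [sg_ae d] with u hu
          rw [h1 (r • u) (by rw [norm_smul, hu, mul_one]; exact hr1.trans (le_abs_self r))]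
          simp
        rw [hH, mul_zero, mul_zero]
      · rw [indicator_of_notMem hr0]
  rw [e0, e1, sq_subst]
  refine setIntegral_congr_fun measurableSet_Ioo fun t ht => ?_
  have hq : 0 < qs t := qs_pos ht.1
  have hq2 : qs t ^ 2 = t := Real.sq_sqrt ht.1.le
  have h3 : qs t ^ (d - 1) = qs t * qs t ^ (d - 2) := by
    rw [← pow_succ']
    congr 1
    omega
  rw [hq2, h3]
  have h4 : ((1 / (2 * qs t) : ℝ) : ℂ) * ((qs t * qs t ^ (d - 2) : ℝ) : ℂ) =
      ((qs t ^ (d - 2) / 2 : ℝ) : ℂ) := by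
    rw [← Complex.ofReal_mul]
    congr 1
    field_simp
  rw [← mul_assoc, h4, mul_comm t z]
  ring

theorem HH_le {d : ℕ} {q : ℝ} (hq : 1 ≤ q) {f : E d → ℂ} (hf : Measurable f) (x : E d) (r : ℝ) :
    ‖HH f x r‖ₑ ^ q ≤ (sg d univ) ^ (q - 1) * ∫⁻ w, ‖f (r • w)‖ₑ ^ q ∂(sg d) := by
  have := sg_finite d
  have hq0 : 0 < q := by linarith
  have hm : Measurable fun w => f (r • w) := hf.comp (measurable_const_smul r)
  have h1 : ‖HH f x r‖ₑ ≤ ∫⁻ w, ‖f (r • w)‖ₑ ∂(sg d) := by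
    unfold HH
    refine (enorm_integral_le_lintegral_enorm _).trans (le_of_eq ?_)
    refine lintegral_congr fun w => ?_
    rw [enorm_mul, ← ofReal_norm, norm_phase, ENNReal.ofReal_one, one_mul]
  refine (ENNReal.rpow_le_rpow h1 hq0.le).trans ?_
  have h2 := eLpNorm_le_eLpNorm_mul_rpow_measure_univ (μ := sg d) (p := 1)
    (q := ENNReal.ofReal q) (by rw [← ENNReal.ofReal_one]; exact ENNReal.ofReal_le_ofReal hq)
    hm.aestronglyMeasurable
  rw [eLpNorm_one_eq_lintegral_enorm, eLpNorm_eq_lintegral_rpow_enorm_toReal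
    (by simpa using hq0) ENNReal.ofReal_ne_top, ENNReal.toReal_ofReal hq0.le,
    ENNReal.toReal_one] at h2
  have h3 := ENNReal.rpow_le_rpow h2 hq0.le
  rw [ENNReal.mul_rpow_of_nonneg _ _ hq0.le, ← ENNReal.rpow_mul, ← ENNReal.rpow_mul,
    one_div_mul_cancel hq0.ne', ENNReal.rpow_one] at h3
  have h4 : (1 / 1 - 1 / q) * q = q - 1 := by
    field_simp
  rw [h4, mul_comm] at h3
  exact h3

theorem inner_ball {d : ℕ} (hd : 2 ≤ d) (q : ℝ) (hq : 2 ≤ q) : ∃ K : ℝ, 0 < K ∧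
    ∀ f : E d → ℂ, Measurable f → Integrable f →
    (∀ ξ, ¬ (1 / 2 < ‖ξ‖ ∧ ‖ξ‖ < 1) → f ξ = 0) →
    ∫⁻ x in closedBall (0 : E d) 1, ∫⁻ z : ℝ, ‖X f x z‖ₑ ^ q ≤
      ENNReal.ofReal K * ∫⁻ ξ, ‖f ξ‖ₑ ^ q := by
  have hpi := Real.pi_pos
  have hq0 : 0 < q := by linarith
  have := sg_finite d
  set A : ℝ≥0∞ := (sg d univ) ^ (q - 1) with hA
  have hAt : A ≠ ∞ := ENNReal.rpow_ne_top_of_nonneg (by linarith) (measure_ne_top _ _)
  set V : ℝ≥0∞ := volume (closedBall (0 : E d) 1) with hV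
  have hVt : V ≠ ∞ := measure_closedBall_lt_top.ne
  set C : ℝ≥0∞ := V * (ENNReal.ofReal (2 * Real.pi) * (A * ENNReal.ofReal (2 ^ d))) with hC
  have hCt : C ≠ ∞ := ENNReal.mul_ne_top hVt (ENNReal.mul_ne_top ENNReal.ofReal_ne_top
    (ENNReal.mul_ne_top hAt ENNReal.ofReal_ne_top))
  refine ⟨C.toReal + 1, by positivity, ?_⟩
  intro f hfm hfi h0
  have h1 : ∀ ξ, 1 ≤ ‖ξ‖ → f ξ = 0 := fun ξ hξ => h0 ξ fun h => by linarith [h.2]
  have hCC : C ≤ ENNReal.ofReal (C.toReal + 1) := by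
    rw [← ENNReal.ofReal_toReal hCt]
    apply ENNReal.ofReal_le_ofReal
    rw [ENNReal.toReal_ofReal ENNReal.toReal_nonneg]
    linarith
  have key : ∀ x : E d, ∫⁻ z : ℝ, ‖X f x z‖ₑ ^ q ≤
      ENNReal.ofReal (2 * Real.pi) * (A * ENNReal.ofReal (2 ^ d)) * ∫⁻ ξ, ‖f ξ‖ₑ ^ q := by
    intro x
    set h : ℝ → ℂ := (Ioo (0 : ℝ) 1).indicator fun t =>
      ((qs t ^ (d - 2) / 2 : ℝ) : ℂ) * HH f x (qs t) with hh
    have hhm : Measurable h := by
      apply Measurable.indicator _ measurableSet_Ioo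
      apply Measurable.mul
      · exact Complex.measurable_ofReal.comp ((qs_meas.pow_const _).div_const _)
      · exact (HH_meas hfm x).comp qs_meas
    have e1 : ∀ z, ‖X f x z‖ₑ = ‖∫ t, Complex.exp (-((z * t : ℝ) : ℂ) * Complex.I) * h t‖ₑ := by
      intro z
      rw [X_HH hd hfi h1 x z, ← integral_indicator measurableSet_Ioo]
      congr 2
      funext t
      rw [hh]
      by_cases ht : t ∈ Ioo (0 : ℝ) 1
      · rw [indicator_of_mem ht, indicator_of_mem ht]
      · rw [indicator_of_notMem ht, indicator_of_notMem ht, mul_zero]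
    simp_rw [e1]
    have h3 := hy_q q hq h hhm (fun t ht => indicator_of_notMem ht _)
    have hjm : Measurable (Function.uncurry fun (t : ℝ) (w : E d) => ‖f (qs t • w)‖ₑ ^ q) :=
      (hfm.comp ((qs_meas.comp measurable_fst).smul measurable_snd)).enorm.pow_const q
    have h4 : ∫⁻ t, ‖h t‖ₑ ^ q ≤ A * ∫⁻ t in Ioo (0 : ℝ) 1, ∫⁻ w, ‖f (qs t • w)‖ₑ ^ q ∂(sg d) := by
      rw [← lintegral_const_mul' _ _ hAt, ← lintegral_indicator measurableSet_Ioo]
      refine lintegral_mono fun t => ?_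
      by_cases ht : t ∈ Ioo (0 : ℝ) 1
      · rw [hh, indicator_of_mem ht, indicator_of_mem ht, enorm_mul,
          ENNReal.mul_rpow_of_nonneg _ _ hq0.le]
        have h5 : ‖((qs t ^ (d - 2) / 2 : ℝ) : ℂ)‖ₑ ^ q ≤ 1 := by
          have hqp := qs_pos ht.1
          have h6 : qs t ^ (d - 2) ≤ 1 := pow_le_one₀ hqp.le (qs_le_one ht)
          have h7 : ‖((qs t ^ (d - 2) / 2 : ℝ) : ℂ)‖ₑ ≤ 1 := by
            rw [← ofReal_norm, Complex.norm_real, Real.norm_of_nonneg (by positivity),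
              ← ENNReal.ofReal_one]
            apply ENNReal.ofReal_le_ofReal
            linarith
          exact ENNReal.rpow_le_one h7 hq0.le
        calc _ ≤ 1 * (A * ∫⁻ w, ‖f (qs t • w)‖ₑ ^ q ∂(sg d)) :=
              mul_le_mul' h5 (HH_le (by linarith) hfm x _)
          _ = _ := one_mul _
      · rw [hh, indicator_of_notMem ht, indicator_of_notMem ht, enorm_zero,
          ENNReal.zero_rpow_of_pos hq0]
    refine h3.trans ?_
    rw [mul_assoc, mul_assoc]
    refine mul_le_mul' le_rfl (h4.trans (mul_le_mul' le_rfl ?_))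
    rw [lintegral_lintegral_swap hjm.aemeasurable, polar (by omega) _ (hfm.enorm.pow_const q),
      ← lintegral_const_mul' _ _ ENNReal.ofReal_ne_top]
    apply lintegral_mono_ae
    filter_upwards [sg_ae d] with w hw
    exact ray_sub hd hq0 h0 w hw
  calc ∫⁻ x in closedBall (0 : E d) 1, ∫⁻ z : ℝ, ‖X f x z‖ₑ ^ q
      ≤ ∫⁻ _x in closedBall (0 : E d) 1, ENNReal.ofReal (2 * Real.pi) *
          (A * ENNReal.ofReal (2 ^ d)) * ∫⁻ ξ, ‖f ξ‖ₑ ^ q := lintegral_mono fun x => key x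
    _ = C * ∫⁻ ξ, ‖f ξ‖ₑ ^ q := by
        rw [setLIntegral_const, ← hV, hC]
        ring
    _ ≤ _ := mul_le_mul' hCC le_rfl

end Pool.Agent.H243.RS
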