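import Mathlib
import Pool.Agent.H243.RS.G11
set_option autoImplicit false

/-! From annuli to balls, for classes of functions closed under dilations and restriction to
annuli. -/

open MeasureTheory Set Metric Filter Topology
open scoped ENNReal NNReal RealInnerProductSpace

namespace Pool.Agent.H243.RS

open Pool.Agent.H789R2.FR (E sg sg_finite sg_ae polar)
open Pool.Agent.H243.RP
open Pool.Agent.Y251.HR (shell shell_meas)

variable {d : ℕ}

/-- closed under dilations and restriction to annuli -/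
def Cl (P : (E d → ℂ) → Prop) : Prop :=
  (∀ (f : E d → ℂ) (a : ℝ), 0 < a → Measurable f → P f → P fun ξ => f (a • ξ)) ∧
  ∀ (f : E d → ℂ) (R : ℝ) (k : ℕ), P f → P ((ann d R k).indicator f)

theorem ball_gen (hd : 2 ≤ d) (q : ℝ) (hq : 2 * ((d : ℝ) + 1) / d < q) :
    ∃ S : ℝ, 0 < S ∧ ∀ K : ℝ, 0 < K → ∀ P : (E d → ℂ) → Prop, Cl P →
    (∀ f : E d → ℂ, Measurable f → P f → (∀ ξ, ¬ (1 / 2 < ‖ξ‖ ∧ ‖ξ‖ < 1) → f ξ = 0) →
      ∫⁻ x : E d, ∫⁻ z : ℝ, ‖X f x z‖ₑ ^ q ≤ ENNReal.ofReal K * ∫⁻ ξ, ‖f ξ‖ₑ ^ q) →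
    ∀ f : E d → ℂ, Measurable f → P f → ∀ R : ℝ, 0 < R → (∀ ξ, R < ‖ξ‖ → f ξ = 0) →
    ∫⁻ x : E d, ∫⁻ z : ℝ, ‖X f x z‖ₑ ^ q ≤
      ENNReal.ofReal (S * K * R ^ (d * q - 2 * d - 2)) * ∫⁻ ξ, ‖f ξ‖ₑ ^ q := by
  have hd2 : (2 : ℝ) ≤ d := by exact_mod_cast hd
  have hd0 : (0 : ℝ) < d := by linarith
  have hq0 : 0 < q := lt_trans (by positivity) hq
  set κ : ℝ := d * q - 2 * d - 2 with hκ
  have hκ0 : 0 < κ := by
    rw [div_lt_iff₀ hd0] at hq
    rw [hκ]
    linarith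
  obtain ⟨S, hS, hS'⟩ := tsum_pow_le hq0 hκ0
  refine ⟨S, hS, fun K hK P hP hA f hfm hPf R hR h0 => ?_⟩
  -- the annulus of radius `a`
  have h : ∀ g : E d → ℂ, Measurable g → P g → ∀ a : ℝ, 0 < a →
      (∀ ξ, ¬ (a / 2 < ‖ξ‖ ∧ ‖ξ‖ < a) → g ξ = 0) →
      ∫⁻ x : E d, ∫⁻ z : ℝ, ‖X g x z‖ₑ ^ q ≤
        ENNReal.ofReal (K * a ^ (d * q - 2 * d - 2)) * ∫⁻ ξ, ‖g ξ‖ₑ ^ q := by
    intro g hgm hPg a ha hg0
    have h1 := hA (fun ξ => g (a • ξ)) (hgm.comp (measurable_const_smul a)) (hP.1 g a ha hgm hPg) (by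
      intro ξ hξ
      apply hg0
      rw [norm_smul, Real.norm_of_nonneg ha.le]
      intro ⟨h2, h3⟩
      apply hξ
      constructor
      · by_contra hc
        push Not at hc
        nlinarith
      · by_contra hc
        push Not at hc
        nlinarith)
    rw [lint_X_scale hgm ha hq0]
    refine (mul_le_mul' le_rfl h1).trans (le_of_eq ?_)
    rw [lint_f_scale hgm ha, ← mul_assoc, ← mul_assoc, ← ENNReal.ofReal_mul (by positivity),
      ← ENNReal.ofReal_mul (by positivity)]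
    congr 2
    calc a ^ (d * q - d - 2) * K * a ^ (-(d : ℝ)) = K * (a ^ (d * q - d - 2) * a ^ (-(d : ℝ))) := by
          ring
      _ = _ := by
          rw [← Real.rpow_add ha]
          congr 2
          ring
  set g : ℕ → E d → ℂ := fun k => (ann d R k).indicator f with hg
  have hgm : ∀ k, Measurable (g k) := fun k => hfm.indicator (ann_meas R k)
  have h1 : ∀ k, ENNReal.ofReal (((2 : ℝ) ^ k) ^ κ) * ∫⁻ x : E d, ∫⁻ z : ℝ, ‖X (g k) x z‖ₑ ^ q ≤
      ENNReal.ofReal (K * R ^ κ) * ∫⁻ ξ in ann d R k, ‖f ξ‖ₑ ^ q := by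
    intro k
    have h2 := h (g k) (hgm k) (hP.2 f R k hPf) (R / 2 ^ k) (by positivity)
      (fun ξ hξ => indicator_of_notMem (show ξ ∉ ann d R k from hξ) f)
    refine (mul_le_mul' le_rfl h2).trans (le_of_eq ?_)
    rw [← mul_assoc, ← ENNReal.ofReal_mul (by positivity)]
    congr 1
    · congr 1
      rw [← hκ, Real.div_rpow hR.le (by positivity)]
      field_simp
    · rw [← lintegral_indicator (ann_meas R k)]
      refine lintegral_congr fun ξ => ?_
      simp only [hg]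
      by_cases hx : ξ ∈ ann d R k
      · rw [indicator_of_mem hx, indicator_of_mem hx]
      · rw [indicator_of_notMem hx, indicator_of_notMem hx, enorm_zero,
          ENNReal.zero_rpow_of_pos hq0]
  have hXm : ∀ k, Measurable fun p : E d × ℝ => ‖X (g k) p.1 p.2‖ₑ ^ q :=
    fun k => (X_meas (hgm k)).enorm.pow_const q
  calc ∫⁻ x : E d, ∫⁻ z : ℝ, ‖X f x z‖ₑ ^ q
      ≤ ∫⁻ x : E d, ∫⁻ z : ℝ, ENNReal.ofReal S *
          ∑' k, ENNReal.ofReal (((2 : ℝ) ^ k) ^ κ) * ‖X (g k) x z‖ₑ ^ q := by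
        refine lintegral_mono fun x => lintegral_mono fun z => ?_
        exact (ENNReal.rpow_le_rpow (ball_split hd hR h0 x z) hq0.le).trans (hS' _)
    _ = ENNReal.ofReal S * ∑' k, ENNReal.ofReal (((2 : ℝ) ^ k) ^ κ) *
          ∫⁻ x : E d, ∫⁻ z : ℝ, ‖X (g k) x z‖ₑ ^ q := by
        have e1 : ∀ x : E d, ∫⁻ z : ℝ, ENNReal.ofReal S *
            ∑' k, ENNReal.ofReal (((2 : ℝ) ^ k) ^ κ) * ‖X (g k) x z‖ₑ ^ q = ENNReal.ofReal S *
            ∑' k, ENNReal.ofReal (((2 : ℝ) ^ k) ^ κ) * ∫⁻ z : ℝ, ‖X (g k) x z‖ₑ ^ q := by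
          intro x
          rw [lintegral_const_mul' _ _ ENNReal.ofReal_ne_top, lintegral_tsum]
          · congr 2
            funext k
            rw [lintegral_const_mul' _ _ ENNReal.ofReal_ne_top]
          · intro k
            exact (((hXm k).comp measurable_prodMk_left).const_mul _).aemeasurable
        simp_rw [e1]
        rw [lintegral_const_mul' _ _ ENNReal.ofReal_ne_top, lintegral_tsum]
        · congr 2
          funext k
          rw [lintegral_const_mul' _ _ ENNReal.ofReal_ne_top]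
        · intro k
          exact ((XI_meas (hgm k) q).const_mul _).aemeasurable
    _ ≤ ENNReal.ofReal S * ∑' k, ENNReal.ofReal (K * R ^ κ) * ∫⁻ ξ in ann d R k, ‖f ξ‖ₑ ^ q := by
        exact mul_le_mul' le_rfl (ENNReal.tsum_le_tsum h1)
    _ = ENNReal.ofReal S * (ENNReal.ofReal (K * R ^ κ) *
          ∫⁻ ξ in ⋃ k, ann d R k, ‖f ξ‖ₑ ^ q) := by
        rw [ENNReal.tsum_mul_left, lintegral_iUnion (ann_meas R) (ann_disj hR)]
    _ ≤ ENNReal.ofReal S * (ENNReal.ofReal (K * R ^ κ) * ∫⁻ ξ, ‖f ξ‖ₑ ^ q) := by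
        gcongr
        exact Measure.restrict_le_self
    _ = _ := by
        rw [← mul_assoc, ← ENNReal.ofReal_mul hS.le, mul_assoc]

/-- from an exponent `p` to a larger exponent `q` -/
theorem up_gen (hd : 2 ≤ d) (p q : ℝ) (hp : 1 ≤ p) (hpq : p ≤ q) :
    ∃ S : ℝ, 0 < S ∧ ∀ K : ℝ, 0 < K → ∀ (f : E d → ℂ) (R : ℝ), Measurable f → 0 < R →
    (∀ ξ, R < ‖ξ‖ → f ξ = 0) →
    (∫⁻ x : E d, ∫⁻ z : ℝ, ‖X f x z‖ₑ ^ p ≤
      ENNReal.ofReal (K * R ^ (d * p - 2 * d - 2)) * ∫⁻ ξ, ‖f ξ‖ₑ ^ p) →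
    ∫⁻ x : E d, ∫⁻ z : ℝ, ‖X f x z‖ₑ ^ q ≤
      ENNReal.ofReal (S * K * R ^ (d * q - 2 * d - 2)) * ∫⁻ ξ, ‖f ξ‖ₑ ^ q := by
  have hd2 : (2 : ℝ) ≤ d := by exact_mod_cast hd
  have hd0 : (0 : ℝ) < d := by linarith
  have hp0 : 0 < p := by linarith
  have hq0 : 0 < q := by linarith
  set V : ℝ≥0∞ := volume (Metric.ball (0 : E d) 1) with hV
  have hVf : V ≠ ∞ := measure_ball_lt_top.ne
  have hV0 : V ≠ 0 := (Metric.measure_ball_pos volume (0 : E d) one_pos).ne'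
  set v : ℝ := V.toReal with hv
  have hv0 : 0 < v := ENNReal.toReal_pos hV0 hVf
  have hVv : V = ENNReal.ofReal v := (ENNReal.ofReal_toReal hVf).symm
  refine ⟨v ^ ((1 - 1 / q) * (q - p)) * v ^ (1 - p / q), by positivity, ?_⟩
  intro K hK f R hfm hR h0 hmain
  set F : ℝ≥0∞ := ∫⁻ ξ, ‖f ξ‖ₑ ^ q with hF
  set W : ℝ := R ^ (d : ℝ) * v with hW
  have hW0 : 0 < W := by positivity
  have hvol : volume (Metric.closedBall (0 : E d) R) = ENNReal.ofReal W := by
    rw [vol_ball hd hR, ← hV, hVv, ← ENNReal.ofReal_mul (by positivity)]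
  have hH1 : ∫⁻ ξ, ‖f ξ‖ₑ ≤ ENNReal.ofReal (W ^ (1 - 1 / q)) * F ^ (1 / q) := by
    have h1 := holder_ball one_pos (by linarith : (1 : ℝ) ≤ q) hfm h0
    simp only [ENNReal.rpow_one] at h1
    rw [hvol, ENNReal.ofReal_rpow_of_pos hW0] at h1
    exact h1
  have hH2 : ∫⁻ ξ, ‖f ξ‖ₑ ^ p ≤ ENNReal.ofReal (W ^ (1 - p / q)) * F ^ (p / q) := by
    have h1 := holder_ball hp0 hpq hfm h0
    rw [hvol, ENNReal.ofReal_rpow_of_pos hW0] at h1
    exact h1
  rcases eq_or_ne F ∞ with hinf | hfin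
  · rw [hinf, ENNReal.mul_top (by simpa using by positivity)]
    exact le_top
  set I : ℝ≥0∞ := ∫⁻ ξ, ‖f ξ‖ₑ with hI
  have hIf : I ≠ ∞ := ne_top_of_le_ne_top (ENNReal.mul_ne_top ENNReal.ofReal_ne_top
    (ENNReal.rpow_ne_top_of_nonneg (by positivity) hfin)) hH1
  have h1q : 0 ≤ (1 / q : ℝ) := by positivity
  calc ∫⁻ x : E d, ∫⁻ z : ℝ, ‖X f x z‖ₑ ^ q
      ≤ ∫⁻ x : E d, ∫⁻ z : ℝ, I ^ (q - p) * ‖X f x z‖ₑ ^ p := by
        refine lintegral_mono fun x => lintegral_mono fun z => ?_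
        have e : ‖X f x z‖ₑ ^ q = ‖X f x z‖ₑ ^ (q - p) * ‖X f x z‖ₑ ^ p := by
          rw [← ENNReal.rpow_add_of_nonneg _ _ (by linarith) hp0.le]
          congr 1
          ring
        rw [e]
        exact mul_le_mul' (ENNReal.rpow_le_rpow (X_le_int f x z) (by linarith)) le_rfl
    _ = I ^ (q - p) * ∫⁻ x : E d, ∫⁻ z : ℝ, ‖X f x z‖ₑ ^ p := by
        have hIq : I ^ (q - p) ≠ ∞ := ENNReal.rpow_ne_top_of_nonneg (by linarith) hIf
        rw [← lintegral_const_mul' _ _ hIq]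
        refine lintegral_congr fun x => ?_
        rw [lintegral_const_mul' _ _ hIq]
    _ ≤ (ENNReal.ofReal (W ^ (1 - 1 / q)) * F ^ (1 / q)) ^ (q - p) *
          (ENNReal.ofReal (K * R ^ (d * p - 2 * d - 2)) *
            (ENNReal.ofReal (W ^ (1 - p / q)) * F ^ (p / q))) := by
        refine mul_le_mul' (ENNReal.rpow_le_rpow hH1 (by linarith)) (hmain.trans ?_)
        exact mul_le_mul' le_rfl hH2
    _ = ENNReal.ofReal (W ^ ((1 - 1 / q) * (q - p)) * (K * R ^ (d * p - 2 * d - 2)) *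
          W ^ (1 - p / q)) * (F ^ (1 / q * (q - p)) * F ^ (p / q)) := by
        rw [ENNReal.mul_rpow_of_nonneg _ _ (by linarith),
          ENNReal.ofReal_rpow_of_pos (by positivity), ← Real.rpow_mul hW0.le, ← ENNReal.rpow_mul,
          ENNReal.ofReal_mul (q := W ^ (1 - p / q)) (by positivity),
          ENNReal.ofReal_mul (p := W ^ ((1 - 1 / q) * (q - p))) (by positivity)]
        ring
    _ = _ := by
        rw [← ENNReal.rpow_add_of_nonneg _ _ (by
          apply mul_nonneg (by positivity) (by linarith)) (by positivity)]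
        have e1 : 1 / q * (q - p) + p / q = 1 := by
          field_simp
          ring
        rw [e1, ENNReal.rpow_one]
        congr 2
        have e2 : W ^ ((1 - 1 / q) * (q - p)) = R ^ (d * ((1 - 1 / q) * (q - p))) *
            v ^ ((1 - 1 / q) * (q - p)) := by
          rw [hW, Real.mul_rpow (by positivity) hv0.le, ← Real.rpow_mul hR.le]
        have e3 : W ^ (1 - p / q) = R ^ (d * (1 - p / q)) * v ^ (1 - p / q) := by
          rw [hW, Real.mul_rpow (by positivity) hv0.le, ← Real.rpow_mul hR.le]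
        have e4 : R ^ (d * ((1 - 1 / q) * (q - p))) * R ^ (d * p - 2 * d - 2) *
            R ^ (d * (1 - p / q)) = R ^ (d * q - 2 * d - 2) := by
          rw [← Real.rpow_add hR, ← Real.rpow_add hR]
          congr 1
          field_simp
          ring
        rw [e2, e3, ← e4]
        ring

end Pool.Agent.H243.RS
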