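import Mathlib
import Pool.Agent.H243.RS.G12
set_option autoImplicit false

/-! The extension estimate for functions with sparse angular spectrum. -/

open MeasureTheory Set Metric Filter Topology
open scoped ENNReal NNReal RealInnerProductSpace

namespace Pool.Agent.H243.RS

open Pool.Agent.H789R2.FR (E sg sg_finite sg_ae polar)
open Pool.Agent.H243.RP
open Pool.Agent.Y251.HR (shell shell_meas)

theorem cover_shell (x : E 2) : x ∈ closedBall (0 : E 2) 1 ∪ ⋃ j : ℕ, shell 2 (2 ^ j) := by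
  rcases le_or_gt ‖x‖ 1 with h1 | h1
  · left
    rwa [mem_closedBall_zero_iff]
  · right
    obtain ⟨n, hn1, hn2⟩ := exists_mem_Ioc_zpow (by linarith : 0 < ‖x‖) (by norm_num : (1 : ℝ) < 2)
    have hn : 0 ≤ n := by
      by_contra hc
      have h3 : (2 : ℝ) ^ (n + 1) ≤ (2 : ℝ) ^ (0 : ℤ) :=
        zpow_le_zpow_right₀ (by norm_num) (by omega)
      rw [zpow_zero] at h3
      linarith
    obtain ⟨k, rfl⟩ := Int.eq_ofNat_of_zero_le hn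
    refine mem_iUnion.2 ⟨k, by simpa using hn1, ?_⟩
    have h4 : (2 : ℝ) ^ ((k : ℤ) + 1) = 2 * 2 ^ k := by
      rw [zpow_add₀ (by norm_num), zpow_one, zpow_natCast]
      ring
    rw [← h4]
    exact hn2

theorem split_shell (F : E 2 → ℝ≥0∞) : ∫⁻ x, F x ≤ (∫⁻ x in closedBall (0 : E 2) 1, F x) +
    ∑' j : ℕ, ∫⁻ x in shell 2 (2 ^ j), F x := by
  calc ∫⁻ x, F x = ∫⁻ x in univ, F x := by rw [setLIntegral_univ]
    _ ≤ ∫⁻ x in closedBall (0 : E 2) 1 ∪ ⋃ j : ℕ, shell 2 (2 ^ j), F x :=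
        lintegral_mono_set fun x _ => cover_shell x
    _ ≤ (∫⁻ x in closedBall (0 : E 2) 1, F x) + ∫⁻ x in ⋃ j : ℕ, shell 2 (2 ^ j), F x :=
        lintegral_union_le _ _ _
    _ ≤ _ := by
        gcongr
        exact lintegral_iUnion_le _ _

theorem annulus_S (β γ B q : ℝ) (hβ : 0 ≤ β) (hγ : 0 ≤ γ) (hs : β + γ < 1)
    (hq : (6 - 2 * (β + γ)) / (2 - (β + γ)) < q) (hq4 : q < 4) : ∃ K : ℝ, 0 < K ∧
    ∀ L : Set ℤ, Sparse β γ B L → ∀ f : E 2 → ℂ, Measurable f → Spec L f →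
    (∀ ξ, ¬ (1 / 2 < ‖ξ‖ ∧ ‖ξ‖ < 1) → f ξ = 0) →
    ∫⁻ x : E 2, ∫⁻ z : ℝ, ‖X f x z‖ₑ ^ q ≤ ENNReal.ofReal K * ∫⁻ ξ, ‖f ξ‖ₑ ^ q := by
  have hq3 : 3 ≤ q := by
    rw [div_lt_iff₀ (by linarith)] at hq
    by_contra hc
    push Not at hc
    have : 0 ≤ β + γ := by positivity
    nlinarith
  obtain ⟨K1, η, hK1, hη, h1⟩ := shell_spec β γ B q hβ hγ hs hq hq4
  obtain ⟨K2, hK2, h2⟩ := inner_ball (d := 2) le_rfl q (by linarith)
  obtain ⟨K3, hK3, h3⟩ := geom_ofReal hK1 hη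
  refine ⟨K2 + K3, by positivity, ?_⟩
  intro L hL f hfm hsp h0
  rcases eq_or_ne (∫⁻ ξ, ‖f ξ‖ₑ ^ q) ∞ with hinf | hfin
  · rw [hinf, ENNReal.mul_top (by
      rw [Ne, ENNReal.ofReal_eq_zero, not_le]
      positivity)]
    exact le_top
  have hR0 : ∀ ξ, 1 < ‖ξ‖ → f ξ = 0 := fun ξ hξ => h0 ξ fun h => by linarith [h.2]
  have hfi : Integrable f := int_of_Lq (by linarith) hfm hR0 hfin
  have hf2 : ∫⁻ x, ‖f x‖ₑ ^ 2 ≠ ∞ := by
    have h4 := holder_ball (p := 2) (q := q) (by norm_num) (by linarith) hfm hR0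
    simp only [ENNReal.rpow_two] at h4
    refine ne_top_of_le_ne_top (ENNReal.mul_ne_top ?_ ?_) h4
    · apply ENNReal.rpow_ne_top_of_nonneg
      · rw [sub_nonneg, div_le_one (by linarith)]
        linarith
      · exact measure_closedBall_lt_top.ne
    · exact ENNReal.rpow_ne_top_of_nonneg (by positivity) hfin
  calc ∫⁻ x : E 2, ∫⁻ z : ℝ, ‖X f x z‖ₑ ^ q
      ≤ (∫⁻ x in closedBall (0 : E 2) 1, ∫⁻ z : ℝ, ‖X f x z‖ₑ ^ q) +
        ∑' j : ℕ, ∫⁻ x in shell 2 (2 ^ j), ∫⁻ z : ℝ, ‖X f x z‖ₑ ^ q := split_shell _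
    _ ≤ ENNReal.ofReal K2 * (∫⁻ ξ, ‖f ξ‖ₑ ^ q) +
        ∑' j : ℕ, ENNReal.ofReal (K1 * ((2 : ℝ) ^ j) ^ (-η)) * ∫⁻ ξ, ‖f ξ‖ₑ ^ q :=
        add_le_add (h2 f hfm hfi h0) (ENNReal.tsum_le_tsum fun j => h1 L hL f hfm hfi hf2 h0 hsp j)
    _ = _ := by
        rw [ENNReal.tsum_mul_right, h3, ← add_mul, ENNReal.ofReal_add hK2.le hK3.le]

theorem Spec_smul {L : Set ℤ} {f : E 2 → ℂ} (hf : Measurable f) (h : Spec L f) {a : ℝ}
    (ha : 0 < a) : Spec L fun ξ => f (a • ξ) := by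
  intro k hk
  have e1 : comp k (fun ξ => f (a • ξ)) = fun x => comp k f (a • x) := by
    funext x
    rw [comp_eq, comp_eq]
    simp only [rot_smul]
  rw [e1]
  have h1 := lint_smul (volume : Measure (E 2)) (fun x => ‖comp k f x‖ₑ)
    (comp_meas k hf).enorm ha.ne'
  have h2 : ∫⁻ x, ‖comp k f x‖ₑ = 0 := by
    rw [lintegral_eq_zero_iff (comp_meas k hf).enorm]
    filter_upwards [h k hk] with x hx
    rw [hx]
    simp
  rw [h2, mul_zero] at h1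
  have hm : Measurable fun x => ‖comp k f (a • x)‖ₑ :=
    ((comp_meas k hf).comp (measurable_const_smul a)).enorm
  rw [lintegral_eq_zero_iff hm] at h1
  filter_upwards [h1] with x hx
  simpa using hx

theorem Spec_ann {L : Set ℤ} {f : E 2 → ℂ} (h : Spec L f) (R : ℝ) (k : ℕ) :
    Spec L ((ann 2 R k).indicator f) := by
  intro m hm
  have hS : ∀ φ x, rot φ x ∈ ann 2 R k ↔ x ∈ ann 2 R k := by
    intro φ x
    unfold ann
    simp only [mem_ofPred_eq, rot_norm]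
  have e1 : comp m ((ann 2 R k).indicator f) = (ann 2 R k).indicator (comp m f) :=
    funext (comp_ind m f _ hS)
  rw [e1]
  filter_upwards [h m hm] with x hx
  by_cases h2 : x ∈ ann 2 R k
  · rw [indicator_of_mem h2, hx]
  · rw [indicator_of_notMem h2]
    rfl

theorem Spec_Cl (L : Set ℤ) : Cl (Spec L) :=
  ⟨fun _ _ ha hf h => Spec_smul hf h ha, fun _ R k h => Spec_ann h R k⟩

theorem ball_S (β γ B q : ℝ) (hβ : 0 ≤ β) (hγ : 0 ≤ γ) (hs : β + γ < 1)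
    (hq : (6 - 2 * (β + γ)) / (2 - (β + γ)) < q) : ∃ K : ℝ, 0 < K ∧
    ∀ L : Set ℤ, Sparse β γ B L → ∀ f : E 2 → ℂ, Measurable f → Spec L f →
    ∀ R : ℝ, 0 < R → (∀ ξ, R < ‖ξ‖ → f ξ = 0) →
    ∫⁻ x : E 2, ∫⁻ z : ℝ, ‖X f x z‖ₑ ^ q ≤
      ENNReal.ofReal (K * R ^ (2 * q - 6)) * ∫⁻ ξ, ‖f ξ‖ₑ ^ q := by
  have hs0 : 0 ≤ β + γ := by positivity
  have h3 : 3 ≤ (6 - 2 * (β + γ)) / (2 - (β + γ)) := by
    rw [le_div_iff₀ (by linarith)]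
    linarith
  have h4 : (6 - 2 * (β + γ)) / (2 - (β + γ)) < 4 := by
    rw [div_lt_iff₀ (by linarith)]
    linarith
  have e6 : ∀ r : ℝ, ((2 : ℕ) : ℝ) * r - 2 * ((2 : ℕ) : ℝ) - 2 = 2 * r - 6 := by
    intro r
    push_cast
    ring
  -- exponents below four
  have low : ∀ p : ℝ, (6 - 2 * (β + γ)) / (2 - (β + γ)) < p → p < 4 → ∃ K : ℝ, 0 < K ∧
      ∀ L : Set ℤ, Sparse β γ B L → ∀ f : E 2 → ℂ, Measurable f → Spec L f →
      ∀ R : ℝ, 0 < R → (∀ ξ, R < ‖ξ‖ → f ξ = 0) →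
      ∫⁻ x : E 2, ∫⁻ z : ℝ, ‖X f x z‖ₑ ^ p ≤
        ENNReal.ofReal (K * R ^ (2 * p - 6)) * ∫⁻ ξ, ‖f ξ‖ₑ ^ p := by
    intro p hp hp4
    obtain ⟨K, hK, h5⟩ := annulus_S β γ B p hβ hγ hs hp hp4
    obtain ⟨S, hS, h6⟩ := ball_gen (d := 2) le_rfl p (by
      push_cast
      linarith)
    refine ⟨S * K, by positivity, fun L hL f hfm hsp R hR h0 => ?_⟩
    have h7 := h6 K hK (Spec L) (Spec_Cl L) (fun g hgm hg hg0 => h5 L hL g hgm hg hg0)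
      f hfm hsp R hR h0
    rwa [e6] at h7
  rcases lt_or_ge q 4 with hq4 | hq4
  · exact low q hq hq4
  · set p : ℝ := ((6 - 2 * (β + γ)) / (2 - (β + γ)) + 4) / 2 with hp
    obtain ⟨K, hK, h5⟩ := low p (by linarith) (by linarith)
    obtain ⟨S, hS, h6⟩ := up_gen (d := 2) le_rfl p q (by linarith) (by linarith)
    refine ⟨S * K, by positivity, fun L hL f hfm hsp R hR h0 => ?_⟩
    have h7 := h6 K hK f R hfm hR h0 (by
      rw [e6]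
      exact h5 L hL f hfm hsp R hR h0)
    rwa [e6] at h7

theorem main_S (β γ B q : ℝ) (hβ : 0 ≤ β) (hγ : 0 ≤ γ) (hs : β + γ < 1)
    (hq : (6 - 2 * (β + γ)) / (2 - (β + γ)) < q) : ∃ K : ℝ, 0 < K ∧
    ∀ L : Set ℤ, Sparse β γ B L → ∀ (c : E 2) (f : E 2 → ℂ), Measurable f →
    Spec L (fun η => f (c + η)) → ∀ R : ℝ, 0 < R → (∀ ξ, R < ‖ξ - c‖ → f ξ = 0) →
    ∫⁻ x : E 2, ∫⁻ z : ℝ, ‖X f x z‖ₑ ^ q ≤
      ENNReal.ofReal (K * R ^ (2 * q - 6)) * ∫⁻ ξ, ‖f ξ‖ₑ ^ q := by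
  obtain ⟨K, hK, h⟩ := ball_S β γ B q hβ hγ hs hq
  refine ⟨K, hK, fun L hL c f hfm hA R hR h0 => ?_⟩
  have h1 := h L hL (fun η => f (c + η)) (hfm.comp (measurable_const_add c)) hA R hR
    (fun ξ hξ => h0 _ (by simpa using hξ))
  rw [lint_translate hfm c q]
  refine h1.trans (le_of_eq ?_)
  congr 1
  exact lintegral_add_left_eq_self (fun ξ => ‖f ξ‖ₑ ^ q) c

end Pool.Agent.H243.RS
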